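import Pool.Agent.TH762.E2.Lba

set_option autoImplicit false

/-!
Reachability predicates are closed under transitive closure, bounded quantification and complement
(Immerman, Szelepcsenyi).
-/

namespace Pool.Agent.TH762.E2

open MvPolynomial Relation

variable {C D : (n : ℕ) → Set ((Fin n → ℕ) → Prop)} {Γ Δ : Type} [Cx Γ] [Cx Δ] {k n : ℕ}

/-- The components of an active state. -/
def uA (z : ℕ) : ℕ := dc1 ((z - 1) / (1 + 1))
def uB (z : ℕ) : ℕ := dc1 (dc2 ((z - 1) / (1 + 1)))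
def uX (z : ℕ) : ℕ := dc2 (dc2 ((z - 1) / (1 + 1)))

/-- The code of an active state. -/
def act (a a' x : ℕ) : ℕ := 2 * pr a (pr a' x) + 1

theorem act_dec (a a' x : ℕ) : uA (act a a' x) = a ∧ uB (act a a' x) = a' ∧
    uX (act a a' x) = x := by
  have h : (act a a' x - 1) / (1 + 1) = pr a (pr a' x) := by
    unfold act
    omega
  unfold uA uB uX
  rw [h]
  have h1 := dc_code a (pr a' x)
  have h2 := dc_code a' x
  have h1' : dc1 (pr a (pr a' x)) = a := h1.1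
  have h1'' : dc2 (pr a (pr a' x)) = pr a' x := h1.2
  rw [h1', h1'']
  exact ⟨rfl, h2.1, h2.2⟩

theorem Fn.uA (hD : Clo D) {f : Γ → ℕ} (hf : Fn D f) : Fn D (fun γ => uA (f γ)) :=
  (((hf.tsub hD (Fn.nat hD 1)).div hD (Fn.nat hD 1))).dc1 hD

theorem Fn.uB (hD : Clo D) {f : Γ → ℕ} (hf : Fn D f) : Fn D (fun γ => uB (f γ)) :=
  ((((hf.tsub hD (Fn.nat hD 1)).div hD (Fn.nat hD 1))).dc2 hD).dc1 hD

theorem Fn.uX (hD : Clo D) {f : Γ → ℕ} (hf : Fn D f) : Fn D (fun γ => uX (f γ)) :=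
  ((((hf.tsub hD (Fn.nat hD 1)).div hD (Fn.nat hD 1))).dc2 hD).dc2 hD

theorem Fn.act (hD : Clo D) {f g h : Γ → ℕ} (hf : Fn D f) (hg : Fn D g) (hh : Fn D h) :
    Fn D (fun γ => act (f γ) (g γ) (h γ)) :=
  ((Fn.nat hD 2).mul hD (hf.pr hD (hg.pr hD hh))).add hD (Fn.nat hD 1)

/-- Reachability predicates are closed under transitive closure. -/
theorem np_rtg (hC : Clo C) {G : (Γ × ℕ) × ℕ → Prop} (hG : Np C G) {b : Γ → ℕ} (hb : Fn C b) :
    Np C (fun q : (Γ × ℕ) × ℕ => ReflTransGen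
      (fun a a' => a ≤ b q.1.1 ∧ a' ≤ b q.1.1 ∧ G ((q.1.1, a), a')) q.1.2 q.2) := by
  obtain ⟨E, b', s, e, hE, hb', hs, he, h1, h2⟩ := hG
  obtain ⟨B, hB⟩ := ((hb'.add hC hs).add hC he).2
  have h11 : Rn (fun q : (Γ × ℕ) × ℕ => q.1.1) := Rn.fst.comp Rn.fst
  -- a bound for the inner states
  let Bv : Γ → ℕ := fun γ => eval (Cx.x (((γ, b γ), b γ) : (Γ × ℕ) × ℕ)) B
  have hBv : Fn C Bv := (Fn.poly (Γ := (Γ × ℕ) × ℕ) hC B).map hC
    (φ := fun γ : Γ => ((γ, b γ), b γ)) (((Mp.id hC).pair hb).pair hb)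
  have hBd : ∀ γ a a', a ≤ b γ → a' ≤ b γ → b' ((γ, a), a') + s ((γ, a), a') +
      e ((γ, a), a') ≤ Bv γ := by
    intro γ a a' ha ha'
    refine (hB ((γ, a), a')).trans (eval_mono B fun j => ?_)
    change Fin (Cx.n Γ + 1 + 1) at j
    refine Fin.cases ?_ (fun j => ?_) j
    · exact ha'
    · refine Fin.cases ?_ (fun j => ?_) j
      · exact ha
      · exact le_rfl
  let Z : (Γ × ℕ) × ℕ → ℕ := fun q =>
    act (b q.1.1) (b q.1.1) (Bv q.1.1) + 2 * (b q.1.1 + q.1.2 + q.2)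
  have hZ : Fn C Z := by
    have hbq := hb.ren hC h11
    exact (hbq.act hC hbq (hBv.ren hC h11)).add hC ((Fn.nat hC 2).mul hC
      ((hbq.add hC ((Vr.snd.ren Rn.fst).fn hC)).add hC (Vr.snd.fn hC)))
  let H : (Γ × ℕ) × ℕ → ℕ → ℕ → Prop := fun q z z' =>
    (z ≤ Z q ∧ z' ≤ Z q) ∧
    ((z = 2 * uA z' ∧ act (uA z') (uB z') (uX z') = z' ∧ uA z' ≤ b q.1.1 ∧ uB z' ≤ b q.1.1 ∧
        uX z' = s ((q.1.1, uA z'), uB z')) ∨
     (act (uA z) (uB z) (uX z) = z ∧ act (uA z') (uB z') (uX z') = z' ∧ uA z = uA z' ∧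
        uB z = uB z' ∧ E ((((q.1.1, uA z), uB z), uX z), uX z')) ∨
     (act (uA z) (uB z) (uX z) = z ∧ z' = 2 * uB z ∧ uX z = e ((q.1.1, uA z), uB z)))
  refine ⟨fun r => H r.1.1 r.1.2 r.2, Z, fun q => 2 * q.1.2, fun q => 2 * q.2, ?_, hZ,
    (Fn.nat hC 2).mul hC ((Vr.snd.ren Rn.fst).fn hC), (Fn.nat hC 2).mul hC (Vr.snd.fn hC),
    fun q z z' h => h.1, ?_⟩
  · have hz : Fn C (fun r : (((Γ × ℕ) × ℕ) × ℕ) × ℕ => r.1.2) := (Vr.snd.ren Rn.fst).fn hC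
    have hz' : Fn C (fun r : (((Γ × ℕ) × ℕ) × ℕ) × ℕ => r.2) := Vr.snd.fn hC
    have hq : Rn (fun r : (((Γ × ℕ) × ℕ) × ℕ) × ℕ => r.1.1) := Rn.fst.comp Rn.fst
    have hγ : Rn (fun r : (((Γ × ℕ) × ℕ) × ℕ) × ℕ => r.1.1.1.1) := hq.comp h11
    have hZr := hZ.ren hC hq
    have hbr := hb.ren hC hγ
    have A1 := hz.uA hC
    have A2 := hz.uB hC
    have A3 := hz.uX hC
    have B1 := hz'.uA hC
    have B2 := hz'.uB hC
    have B3 := hz'.uX hC
    have va : Df C (fun r : (((Γ × ℕ) × ℕ) × ℕ) × ℕ =>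
        act (uA r.1.2) (uB r.1.2) (uX r.1.2) = r.1.2) := Df.eqf hC (A1.act hC A2 A3) hz
    have vb : Df C (fun r : (((Γ × ℕ) × ℕ) × ℕ) × ℕ =>
        act (uA r.2) (uB r.2) (uX r.2) = r.2) := Df.eqf hC (B1.act hC B2 B3) hz'
    refine Df.and hC (Df.and hC (Df.lef hC hz hZr) (Df.lef hC hz' hZr)) (Df.or hC
      (Df.and hC (Df.eqf hC hz ((Fn.nat hC 2).mul hC B1)) (Df.and hC vb (Df.and hC
        (Df.lef hC B1 hbr) (Df.and hC (Df.lef hC B2 hbr) (Df.eqf hC B3 ?_)))))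
      (Df.or hC (Df.and hC va (Df.and hC vb (Df.and hC (Df.eqf hC A1 B1) (Df.and hC
        (Df.eqf hC A2 B2) ?_)))) (Df.and hC va (Df.and hC (Df.eqf hC hz'
          ((Fn.nat hC 2).mul hC A2)) (Df.eqf hC A3 ?_)))))
    · exact hs.map hC (φ := fun r : (((Γ × ℕ) × ℕ) × ℕ) × ℕ =>
        ((r.1.1.1.1, uA r.2), uB r.2)) (((hγ.mp hC).pair B1).pair B2)
    · exact hE.map hC (φ := fun r : (((Γ × ℕ) × ℕ) × ℕ) × ℕ =>
        ((((r.1.1.1.1, uA r.1.2), uB r.1.2), uX r.1.2), uX r.2))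
        (((((hγ.mp hC).pair A1).pair A2).pair A3).pair B3)
    · exact he.map hC (φ := fun r : (((Γ × ℕ) × ℕ) × ℕ) × ℕ =>
        ((r.1.1.1.1, uA r.1.2), uB r.1.2)) (((hγ.mp hC).pair A1).pair A2)
  · intro q
    have hact : ∀ a a' x, a ≤ b q.1.1 → a' ≤ b q.1.1 → x ≤ Bv q.1.1 → act a a' x ≤ Z q := by
      intro a a' x ha ha' hx
      refine le_trans ?_ (Nat.le_add_right _ _)
      have := pr_mono ha (pr_mono ha' hx)
      unfold act
      omega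
    have hin : ∀ a a', a ≤ b q.1.1 → a' ≤ b q.1.1 → ∀ x,
        ReflTransGen (fun x x' => E ((((q.1.1, a), a'), x), x')) (s ((q.1.1, a), a')) x →
        x ≤ Bv q.1.1 := by
      intro a a' ha ha' x hx
      have h3 := hBd q.1.1 a a' ha ha'
      rcases hx.cases_tail with h4 | ⟨y, _, h4⟩
      · rw [h4]; omega
      · have := (h1 ((q.1.1, a), a') y x h4).2
        omega
    constructor
    · intro hr
      -- lift a path
      have step : ∀ a a', a ≤ b q.1.1 → a' ≤ b q.1.1 → G ((q.1.1, a), a') →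
          ReflTransGen (H q) (2 * a) (2 * a') := by
        intro a a' ha ha' hG
        have hp := (h2 ((q.1.1, a), a')).1 hG
        have hs' := hin a a' ha ha' _ ReflTransGen.refl
        have p1 : H q (2 * a) (act a a' (s ((q.1.1, a), a'))) := by
          have hd := act_dec a a' (s ((q.1.1, a), a'))
          refine ⟨⟨?_, hact _ _ _ ha ha' hs'⟩, Or.inl ?_⟩
          · show 2 * a ≤ act _ _ _ + 2 * (b q.1.1 + q.1.2 + q.2)
            omega
          · rw [hd.1, hd.2.1, hd.2.2]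
            exact ⟨rfl, rfl, ha, ha', rfl⟩
        have p2 : ∀ x, ReflTransGen (fun x x' => E ((((q.1.1, a), a'), x), x'))
            (s ((q.1.1, a), a')) x →
            ReflTransGen (H q) (act a a' (s ((q.1.1, a), a'))) (act a a' x) := by
          intro x hx
          induction hx with
          | refl => exact ReflTransGen.refl
          | @tail y z hy hstep ih =>
            refine ih.tail ⟨⟨hact _ _ _ ha ha' (hin a a' ha ha' y hy),
              hact _ _ _ ha ha' (hin a a' ha ha' z (hy.tail hstep))⟩, Or.inr (Or.inl ?_)⟩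
            have hd := act_dec a a' y
            have hd' := act_dec a a' z
            rw [hd.1, hd.2.1, hd.2.2, hd'.1, hd'.2.1, hd'.2.2]
            exact ⟨rfl, rfl, rfl, rfl, hstep⟩
        have p3 : H q (act a a' (e ((q.1.1, a), a'))) (2 * a') := by
          have hd := act_dec a a' (e ((q.1.1, a), a'))
          refine ⟨⟨hact _ _ _ ha ha' (hin a a' ha ha' _ hp), ?_⟩, Or.inr (Or.inr ?_)⟩
          · show 2 * a' ≤ act _ _ _ + 2 * (b q.1.1 + q.1.2 + q.2)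
            omega
          · rw [hd.1, hd.2.1, hd.2.2]
            exact ⟨rfl, rfl, rfl⟩
        exact (ReflTransGen.head p1 (p2 _ hp)).tail p3
      have all : ∀ x, ReflTransGen
          (fun a a' => a ≤ b q.1.1 ∧ a' ≤ b q.1.1 ∧ G ((q.1.1, a), a')) q.1.2 x →
          ReflTransGen (H q) (2 * q.1.2) (2 * x) := by
        intro x hx
        induction hx with
        | refl => exact ReflTransGen.refl
        | tail _ hstep ih => exact ih.trans (step _ _ hstep.1 hstep.2.1 hstep.2.2)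
      exact all _ hr
    · intro hr
      have inv : ∀ z, ReflTransGen (H q) (2 * q.1.2) z →
          (∃ a, z = 2 * a ∧ ReflTransGen
            (fun a a' => a ≤ b q.1.1 ∧ a' ≤ b q.1.1 ∧ G ((q.1.1, a), a')) q.1.2 a) ∨
          (∃ a a' x, z = act a a' x ∧ a ≤ b q.1.1 ∧ a' ≤ b q.1.1 ∧ ReflTransGen
            (fun a a' => a ≤ b q.1.1 ∧ a' ≤ b q.1.1 ∧ G ((q.1.1, a), a')) q.1.2 a ∧
            ReflTransGen (fun x x' => E ((((q.1.1, a), a'), x), x')) (s ((q.1.1, a), a')) x) := by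
        intro z hz
        induction hz with
        | refl => exact Or.inl ⟨_, rfl, ReflTransGen.refl⟩
        | @tail z z' _ hstep ih =>
          obtain ⟨_, g | g | g⟩ := hstep
          · obtain ⟨g1, g2, g3, g4, g5⟩ := g
            rcases ih with ⟨a, ha, hr⟩ | ⟨a, a', x, hx, _⟩
            · have : a = uA z' := by omega
              rw [this] at hr
              refine Or.inr ⟨uA z', uB z', uX z', g2.symm, g3, g4, hr, ?_⟩
              rw [g5]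
            · unfold act at hx
              omega
          · obtain ⟨g1, g2, g3, g4, g5⟩ := g
            rcases ih with ⟨a, ha, hr⟩ | ⟨a, a', x, hx, ha, ha', hr, hr'⟩
            · unfold act at g1
              omega
            · have hd := act_dec a a' x
              rw [← hx] at hd
              rw [hd.1, hd.2.1, hd.2.2] at g5
              rw [hd.1] at g3
              rw [hd.2.1] at g4
              refine Or.inr ⟨a, a', uX z', ?_, ha, ha', hr, hr'.tail g5⟩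
              rw [g3, g4, g2]
          · obtain ⟨g1, g2, g3⟩ := g
            rcases ih with ⟨a, ha, hr⟩ | ⟨a, a', x, hx, ha, ha', hr, hr'⟩
            · unfold act at g1
              omega
            · have hd := act_dec a a' x
              rw [← hx] at hd
              rw [hd.1, hd.2.1, hd.2.2] at g3
              rw [hd.2.1] at g2
              rw [g3] at hr'
              exact Or.inl ⟨a', g2, hr.tail ⟨ha, ha', (h2 ((q.1.1, a), a')).2 hr'⟩⟩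
      rcases inv _ hr with ⟨a, ha, hr'⟩ | ⟨a, a', x, hx, _⟩
      · have hq2 : 2 * q.2 = 2 * a := ha
        have : a = q.2 := by omega
        rw [this] at hr'
        exact hr'
      · exfalso
        have hx' : 2 * q.2 = act a a' x := hx
        unfold act at hx'
        omega

/-- Bounded existential quantification. -/
theorem Np.ex (hC : Clo C) {P : Γ × ℕ → Prop} (h : Np C P) {f : Γ → ℕ} (hf : Fn C f) :
    Np C (fun γ => ∃ y ≤ f γ, P (γ, y)) := by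
  have h11 : Rn (fun q : (Γ × ℕ) × ℕ => q.1.1) := Rn.fst.comp Rn.fst
  have hx : Fn C (fun q : (Γ × ℕ) × ℕ => q.1.2) := (Vr.snd.ren Rn.fst).fn hC
  have hy : Fn C (fun q : (Γ × ℕ) × ℕ => q.2) := Vr.snd.fn hC
  have hG : Np C (fun q : (Γ × ℕ) × ℕ =>
      (q.1.2 = 0 ∧ 2 ≤ q.2 ∧ q.2 - 2 ≤ f q.1.1) ∨
        ((2 ≤ q.1.2 ∧ q.2 = 1 ∧ q.1.2 - 2 ≤ f q.1.1) ∧ P (q.1.1, q.1.2 - 2))) := by
    refine Np.or hC (Np.of_df hC ((Df.eqf hC hx (Fn.nat hC 0)).and hC ((Df.lef hC (Fn.nat hC 2)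
      hy).and hC (Df.lef hC (hy.tsub hC (Fn.nat hC 2)) (hf.ren hC h11)))))
      (Np.and hC (Np.of_df hC ((Df.lef hC (Fn.nat hC 2) hx).and hC ((Df.eqf hC hy
        (Fn.nat hC 1)).and hC (Df.lef hC (hx.tsub hC (Fn.nat hC 2)) (hf.ren hC h11))))) ?_)
    exact h.map hC (φ := fun q : (Γ × ℕ) × ℕ => (q.1.1, q.1.2 - 2))
      ((h11.mp hC).pair (hx.tsub hC (Fn.nat hC 2)))
  have h3 := (np_rtg hC hG (hf.add hC (Fn.nat hC 2))).map hC
    (φ := fun γ : Γ => ((γ, 0), 1)) (((Mp.id hC).pair (Fn.nat hC 0)).pair (Fn.nat hC 1))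
  refine h3.congr fun γ => ?_
  show (∃ y ≤ f γ, P (γ, y)) ↔ ReflTransGen (fun a a' => a ≤ f γ + 2 ∧ a' ≤ f γ + 2 ∧
    ((a = 0 ∧ 2 ≤ a' ∧ a' - 2 ≤ f γ) ∨ ((2 ≤ a ∧ a' = 1 ∧ a - 2 ≤ f γ) ∧ P (γ, a - 2)))) 0 1
  constructor
  · rintro ⟨y, hy, hP⟩
    refine (ReflTransGen.single (b := y + 2) ⟨by omega, by omega,
      Or.inl ⟨rfl, by omega, by omega⟩⟩).tail ⟨by omega, by omega, Or.inr
        ⟨⟨by omega, rfl, by omega⟩, ?_⟩⟩
    rw [Nat.add_sub_cancel]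
    exact hP
  · intro hr
    have inv : ∀ x, ReflTransGen (fun a a' => a ≤ f γ + 2 ∧ a' ≤ f γ + 2 ∧
        ((a = 0 ∧ 2 ≤ a' ∧ a' - 2 ≤ f γ) ∨ ((2 ≤ a ∧ a' = 1 ∧ a - 2 ≤ f γ) ∧ P (γ, a - 2))))
        0 x → x = 0 ∨ 2 ≤ x ∨ (x = 1 ∧ ∃ y ≤ f γ, P (γ, y)) := by
      intro x hx
      induction hx with
      | refl => exact Or.inl rfl
      | tail _ hstep ih =>
        obtain ⟨_, _, ⟨_, g, _⟩ | ⟨⟨_, g1, g2⟩, g3⟩⟩ := hstep
        · exact Or.inr (Or.inl g)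
        · exact Or.inr (Or.inr ⟨g1, _, g2, g3⟩)
    rcases inv 1 hr with h0 | h0 | ⟨_, h0⟩
    · omega
    · omega
    · exact h0

/-- Iterated transitions. -/
def Itr (M : ℕ → ℕ → ℕ → Prop) (m0 : ℕ) : ℕ → ℕ → Prop
  | 0, m => m = m0
  | n + 1, m => ∃ m', Itr M m0 n m' ∧ M n m' m

theorem np_itr (hC : Clo C) {M : ((Γ × ℕ) × ℕ) × ℕ → Prop} (hM : Np C M) {g m0 : Γ → ℕ}
    (hg : Fn C g) (hm : Fn C m0) (hb : ∀ γ a m m', M (((γ, a), m), m') → m' ≤ g γ) :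
    Np C (fun q : (Γ × ℕ) × ℕ =>
      Itr (fun a m m' => M (((q.1.1, a), m), m')) (m0 q.1.1) q.1.2 q.2) := by
  have h11 : Rn (fun q : (Γ × ℕ) × ℕ => q.1.1) := Rn.fst.comp Rn.fst
  have q11 : Rn (fun r : (((Γ × ℕ) × ℕ) × ℕ) × ℕ => r.1.1) := Rn.fst.comp Rn.fst
  have hx : Fn C (fun r : (((Γ × ℕ) × ℕ) × ℕ) × ℕ => r.1.2) := (Vr.snd.ren Rn.fst).fn hC
  have hy : Fn C (fun r : (((Γ × ℕ) × ℕ) × ℕ) × ℕ => r.2) := Vr.snd.fn hC
  let B : (Γ × ℕ) × ℕ → ℕ := fun q => pr q.1.2 (g q.1.1 + m0 q.1.1)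
  have hB : Fn C B := ((Vr.snd.ren Rn.fst).fn hC).pr hC
    ((hg.ren hC h11).add hC (hm.ren hC h11))
  have hG : Np C (fun r : (((Γ × ℕ) × ℕ) × ℕ) × ℕ =>
      (pr (dc1 r.1.2) (dc2 r.1.2) = r.1.2 ∧ pr (dc1 r.2) (dc2 r.2) = r.2 ∧
        dc1 r.2 = dc1 r.1.2 + 1) ∧ M (((r.1.1.1.1, dc1 r.1.2), dc2 r.1.2), dc2 r.2)) := by
    refine Np.and hC (Np.of_df hC ((Df.eqf hC ((hx.dc1 hC).pr hC (hx.dc2 hC)) hx).and hC
      ((Df.eqf hC ((hy.dc1 hC).pr hC (hy.dc2 hC)) hy).and hC (Df.eqf hC (hy.dc1 hC)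
        ((hx.dc1 hC).add hC (Fn.nat hC 1)))))) ?_
    exact hM.map hC (φ := fun r : (((Γ × ℕ) × ℕ) × ℕ) × ℕ =>
      (((r.1.1.1.1, dc1 r.1.2), dc2 r.1.2), dc2 r.2))
      (((((q11.comp h11).mp hC).pair (hx.dc1 hC)).pair (hx.dc2 hC)).pair (hy.dc2 hC))
  have h3 := (np_rtg hC hG hB).map hC
    (φ := fun q : (Γ × ℕ) × ℕ => ((q, pr 0 (m0 q.1.1)), pr q.1.2 q.2))
    (((Mp.id hC).pair ((Fn.nat hC 0).pr hC (hm.ren hC h11))).pair
      (((Vr.snd.ren Rn.fst).fn hC).pr hC (Vr.snd.fn hC)))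
  refine h3.congr fun q => ?_
  show Itr (fun a m m' => M (((q.1.1, a), m), m')) (m0 q.1.1) q.1.2 q.2 ↔
    ReflTransGen (fun z z' => z ≤ B q ∧ z' ≤ B q ∧ (pr (dc1 z) (dc2 z) = z ∧
      pr (dc1 z') (dc2 z') = z' ∧ dc1 z' = dc1 z + 1) ∧
        M (((q.1.1, dc1 z), dc2 z), dc2 z')) (pr 0 (m0 q.1.1)) (pr q.1.2 q.2)
  have hdec : ∀ a m, dc1 (pr a m) = a ∧ dc2 (pr a m) = m := fun a m => dc_code a m
  have hbd : ∀ n m, Itr (fun a m m' => M (((q.1.1, a), m), m')) (m0 q.1.1) n m →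
      m ≤ g q.1.1 + m0 q.1.1 := by
    intro n m h
    rcases n with _ | n
    · have h' : m = m0 q.1.1 := h
      omega
    · obtain ⟨m', _, h'⟩ := h
      have := hb _ _ _ _ h'
      omega
  constructor
  · intro h
    have key : ∀ n, n ≤ q.1.2 → ∀ m, Itr (fun a m m' => M (((q.1.1, a), m), m')) (m0 q.1.1) n m →
        ReflTransGen (fun z z' => z ≤ B q ∧ z' ≤ B q ∧ (pr (dc1 z) (dc2 z) = z ∧
          pr (dc1 z') (dc2 z') = z' ∧ dc1 z' = dc1 z + 1) ∧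
          M (((q.1.1, dc1 z), dc2 z), dc2 z')) (pr 0 (m0 q.1.1)) (pr n m) := by
      intro n
      induction n with
      | zero =>
        intro _ m h
        have h' : m = m0 q.1.1 := h
        rw [h']
      | succ n ih =>
        intro hn m hm'
        have hmm := hm'
        obtain ⟨m', h', hM'⟩ := hm'
        refine (ih (by omega) m' h').tail ⟨pr_mono (by omega) (hbd _ _ h'),
          pr_mono hn (hbd _ _ hmm), ?_⟩
        rw [(hdec n m').1, (hdec n m').2, (hdec (n + 1) m).1, (hdec (n + 1) m).2]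
        exact ⟨⟨rfl, rfl, rfl⟩, hM'⟩
    exact key _ le_rfl _ h
  · intro hr
    have inv : ∀ z, ReflTransGen (fun z z' => z ≤ B q ∧ z' ≤ B q ∧ (pr (dc1 z) (dc2 z) = z ∧
        pr (dc1 z') (dc2 z') = z' ∧ dc1 z' = dc1 z + 1) ∧
        M (((q.1.1, dc1 z), dc2 z), dc2 z')) (pr 0 (m0 q.1.1)) z →
        ∃ n m, z = pr n m ∧ Itr (fun a m m' => M (((q.1.1, a), m), m')) (m0 q.1.1) n m := by
      intro z hz
      induction hz with
      | refl => exact ⟨0, _, rfl, rfl⟩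
      | @tail z z' _ hstep ih =>
        obtain ⟨n, m, hz, hI⟩ := ih
        obtain ⟨_, _, ⟨_, g2, g3⟩, g4⟩ := hstep
        rw [hz, (hdec n m).1] at g3
        rw [hz, (hdec n m).1, (hdec n m).2] at g4
        refine ⟨n + 1, dc2 z', ?_, m, hI, g4⟩
        rw [← g3, g2]
    obtain ⟨n, m, hz, hI⟩ := inv _ hr
    obtain ⟨e1, e2⟩ := pr_inj hz
    rw [e1, e2]
    exact hI

section Count
open Classical

/-- The number of `a < n` with `W a`. -/
noncomputable def cnt (W : ℕ → Prop) (n : ℕ) : ℕ := ((Finset.range n).filter W).card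

theorem cnt_succ (W : ℕ → Prop) (n : ℕ) : cnt W (n + 1) = cnt W n + if W n then 1 else 0 := by
  unfold cnt
  rw [Finset.range_add_one, Finset.filter_insert]
  by_cases h : W n
  · rw [if_pos h, if_pos h, Finset.card_insert_of_notMem (by simp)]
  · rw [if_neg h, if_neg h]
    rfl

theorem cnt_le (W : ℕ → Prop) (n : ℕ) : cnt W n ≤ n := by
  have := Finset.card_filter_le (Finset.range n) W
  rwa [Finset.card_range] at this

theorem cnt_mono {W W' : ℕ → Prop} {n : ℕ} (h : ∀ a < n, W a → W' a) : cnt W n ≤ cnt W' n := by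
  refine Finset.card_le_card fun a ha => ?_
  rw [Finset.mem_filter, Finset.mem_range] at ha ⊢
  exact ⟨ha.1, h a ha.1 ha.2⟩

theorem cnt_lt {W W' : ℕ → Prop} {n : ℕ} (h : ∀ a < n, W a → W' a) {a : ℕ} (ha : a < n)
    (h1 : W' a) (h2 : ¬ W a) : cnt W n < cnt W' n := by
  refine Finset.card_lt_card ?_
  rw [Finset.ssubset_iff_of_subset (by
    intro a ha
    rw [Finset.mem_filter, Finset.mem_range] at ha ⊢
    exact ⟨ha.1, h a ha.1 ha.2⟩)]
  exact ⟨a, Finset.mem_filter.2 ⟨Finset.mem_range.2 ha, h1⟩,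
    fun h => h2 (Finset.mem_filter.1 h).2⟩

theorem cnt_eq_self {s b : ℕ} : (if s ≤ b then 1 else 0) = cnt (fun c => c = s) (b + 1) := by
  unfold cnt
  by_cases hsb : s ≤ b
  · rw [if_pos hsb]
    refine (Finset.card_eq_one.2 ⟨s, ?_⟩).symm
    ext c
    simp only [Finset.mem_filter, Finset.mem_range, Finset.mem_singleton]
    omega
  · rw [if_neg hsb]
    refine (Finset.card_eq_zero.2 (Finset.eq_empty_of_forall_notMem fun c hc => ?_)).symm
    simp only [Finset.mem_filter, Finset.mem_range] at hc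
    omega

/-- Guessing members. -/
theorem itr_guess (W : ℕ → Prop) (n r : ℕ) :
    Itr (fun a m m' => m' = m ∨ (m' = m + 1 ∧ W a)) 0 n r ↔ r ≤ cnt W n := by
  induction n generalizing r with
  | zero =>
    show r = 0 ↔ r ≤ cnt W 0
    have : cnt W 0 = 0 := by simp [cnt]
    omega
  | succ n ih =>
    show (∃ m', Itr (fun a m m' => m' = m ∨ (m' = m + 1 ∧ W a)) 0 n m' ∧
      (r = m' ∨ (r = m' + 1 ∧ W n))) ↔ _
    rw [cnt_succ]
    constructor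
    · rintro ⟨m', h1, h2 | ⟨h2, h3⟩⟩
      · rw [ih] at h1
        omega
      · rw [ih] at h1
        rw [if_pos h3]
        omega
    · intro h
      by_cases hW : W n
      · rw [if_pos hW] at h
        rcases Nat.lt_or_ge (cnt W n) r with h1 | h1
        · exact ⟨cnt W n, (ih _).2 le_rfl, Or.inr ⟨by omega, hW⟩⟩
        · exact ⟨r, (ih _).2 h1, Or.inl rfl⟩
      · rw [if_neg hW] at h
        exact ⟨r, (ih _).2 (by omega), Or.inl rfl⟩

/-- Counting exactly. -/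
theorem itr_exact (W W' : ℕ → Prop) (n : ℕ) (h : ∀ a < n, (W' a ↔ ¬ W a)) (r : ℕ) :
    Itr (fun a m m' => (m' = m + 1 ∧ W a) ∨ (m' = m ∧ W' a)) 0 n r ↔ r = cnt W n := by
  induction n generalizing r with
  | zero =>
    show r = 0 ↔ r = cnt W 0
    have : cnt W 0 = 0 := by simp [cnt]
    omega
  | succ n ih =>
    show (∃ m', Itr (fun a m m' => (m' = m + 1 ∧ W a) ∨ (m' = m ∧ W' a)) 0 n m' ∧
      ((r = m' + 1 ∧ W n) ∨ (r = m' ∧ W' n))) ↔ _
    have ih' := ih (fun a ha => h a (by omega))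
    have hn := h n (by omega)
    rw [cnt_succ]
    constructor
    · rintro ⟨m', h1, ⟨h2, h3⟩ | ⟨h2, h3⟩⟩
      · rw [ih'] at h1
        rw [if_pos h3]
        omega
      · rw [ih'] at h1
        rw [if_neg (hn.1 h3)]
        omega
    · intro hr
      by_cases hW : W n
      · rw [if_pos hW] at hr
        exact ⟨_, (ih' _).2 rfl, Or.inl ⟨hr, hW⟩⟩
      · rw [if_neg hW] at hr
        exact ⟨_, (ih' _).2 rfl, Or.inr ⟨by omega, hn.2 hW⟩⟩

theorem itr_fun (M : ℕ → ℕ → ℕ → Prop) (f : ℕ → ℕ) (h : ∀ n m, M n (f n) m ↔ m = f (n + 1))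
    (n m : ℕ) : Itr M (f 0) n m ↔ m = f n := by
  induction n generalizing m with
  | zero => exact Iff.rfl
  | succ n ih =>
    show (∃ m', Itr M (f 0) n m' ∧ M n m' m) ↔ _
    constructor
    · rintro ⟨m', h1, h2⟩
      rw [ih] at h1
      rw [h1, h] at h2
      exact h2
    · intro hm
      exact ⟨_, (ih _).2 rfl, (h n m).2 hm⟩

end Count

/-- **Complementation** (Immerman, Szelepcsenyi). -/
theorem Np.not (hC : Clo C) {P : Γ → Prop} (h : Np C P) : Np C (fun γ => ¬ P γ) := by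
  classical
  obtain ⟨E, b, s, e, hE, hb, hs, he, h1, h2⟩ := h
  let R : Γ → ℕ → ℕ → Prop := fun γ t c => Rch (fun a a' => E ((γ, a), a')) (s γ) t c
  have hR : Np C (fun q : (Γ × ℕ) × ℕ => R q.1.1 q.1.2 q.2) := np_rch hC hE hb hs h1
  let ct : Γ → ℕ → ℕ := fun γ t => cnt (fun c => R γ t c) (b γ + 1)
  -- not reached, in the context (((γ, t), r), c)
  let NR : ((Γ × ℕ) × ℕ) × ℕ → Prop := fun p =>
    Itr (fun a m m' => m' ≤ b p.1.1.1 + 1 ∧ (m' = m ∨ (m' = m + 1 ∧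
      (R p.1.1.1 p.1.1.2 a ∧ ¬ E ((p.1.1.1, a), p.2) ∧ a ≠ p.2)))) 0 (b p.1.1.1 + 1) p.1.2
  have p111 : Rn (fun p : ((Γ × ℕ) × ℕ) × ℕ => p.1.1.1) := (Rn.fst.comp Rn.fst).comp Rn.fst
  have hNR : Np C NR := by
    have hM : Np C (fun u : (((((Γ × ℕ) × ℕ) × ℕ) × ℕ) × ℕ) × ℕ =>
        u.2 ≤ b u.1.1.1.1.1.1 + 1 ∧ (u.2 = u.1.2 ∨ (u.2 = u.1.2 + 1 ∧
          (R u.1.1.1.1.1.1 u.1.1.1.1.1.2 u.1.1.2 ∧
            ¬ E ((u.1.1.1.1.1.1, u.1.1.2), u.1.1.1.2) ∧ u.1.1.2 ≠ u.1.1.1.2)))) := by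
      have u11 : Rn (fun u : (((((Γ × ℕ) × ℕ) × ℕ) × ℕ) × ℕ) × ℕ => u.1.1.1) :=
        (Rn.fst.comp Rn.fst).comp Rn.fst
      have uγ : Rn (fun u : (((((Γ × ℕ) × ℕ) × ℕ) × ℕ) × ℕ) × ℕ => u.1.1.1.1.1.1) :=
        u11.comp p111
      have ut : Vr (fun u : (((((Γ × ℕ) × ℕ) × ℕ) × ℕ) × ℕ) × ℕ => u.1.1.1.1.1.2) :=
        Vr.snd.ren (u11.comp (Rn.fst.comp Rn.fst))
      have uc : Vr (fun u : (((((Γ × ℕ) × ℕ) × ℕ) × ℕ) × ℕ) × ℕ => u.1.1.1.2) :=
        Vr.snd.ren u11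
      have ua : Vr (fun u : (((((Γ × ℕ) × ℕ) × ℕ) × ℕ) × ℕ) × ℕ => u.1.1.2) :=
        Vr.snd.ren (Rn.fst.comp Rn.fst)
      have um : Vr (fun u : (((((Γ × ℕ) × ℕ) × ℕ) × ℕ) × ℕ) × ℕ => u.1.2) :=
        Vr.snd.ren Rn.fst
      have um' : Vr (fun u : (((((Γ × ℕ) × ℕ) × ℕ) × ℕ) × ℕ) × ℕ => u.2) := Vr.snd
      refine Np.and hC (Np.of_df hC (Df.lef hC (um'.fn hC) ((hb.ren hC uγ).add hC
        (Fn.nat hC 1)))) (Np.or hC (Np.of_df hC (Df.eqf hC (um'.fn hC) (um.fn hC)))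
          (Np.and hC (Np.of_df hC (Df.eqf hC (um'.fn hC) ((um.fn hC).add hC (Fn.nat hC 1))))
            (Np.and hC ?_ (Np.of_df hC (Df.and hC (Df.not hC ?_) (Df.not hC
              (Df.eqf hC (ua.fn hC) (uc.fn hC))))))))
      · exact hR.map hC (φ := fun u : (((((Γ × ℕ) × ℕ) × ℕ) × ℕ) × ℕ) × ℕ =>
          ((u.1.1.1.1.1.1, u.1.1.1.1.1.2), u.1.1.2)) (((uγ.pair ut).pair ua).mp hC)
      · exact hE.ren hC (φ := fun u : (((((Γ × ℕ) × ℕ) × ℕ) × ℕ) × ℕ) × ℕ =>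
          ((u.1.1.1.1.1.1, u.1.1.2), u.1.1.1.2)) ((uγ.pair ua).pair uc)
    have h3 := np_itr (Γ := ((Γ × ℕ) × ℕ) × ℕ) hC hM (g := fun p => b p.1.1.1 + 1)
      (m0 := fun _ => 0) ((hb.ren hC p111).add hC (Fn.nat hC 1)) (Fn.nat hC 0)
      (fun p a m m' h => h.1)
    exact h3.map hC (φ := fun p : ((Γ × ℕ) × ℕ) × ℕ => ((p, b p.1.1.1 + 1), p.1.2))
      (((Mp.id hC).pair ((hb.ren hC p111).add hC (Fn.nat hC 1))).pair
        ((Vr.snd.ren Rn.fst).fn hC))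
  have itr_bd : ∀ (M : ℕ → ℕ → ℕ → Prop) (N : ℕ), (∀ a m m', m ≤ a → M a m m' → m' ≤ a + 1) →
      ∀ n, n ≤ N → ∀ r, (Itr (fun a m m' => m' ≤ N ∧ M a m m') 0 n r ↔ Itr M 0 n r) := by
    intro M N hM
    have hle : ∀ n r, Itr M 0 n r → r ≤ n := by
      intro n
      induction n with
      | zero =>
        intro r h
        have h' : r = 0 := h
        omega
      | succ n ih =>
        rintro r ⟨m', g1, g2⟩
        exact hM _ _ _ (ih _ g1) g2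
    intro n
    induction n with
    | zero => intro _ r; exact Iff.rfl
    | succ n ih =>
      intro hn r
      constructor
      · rintro ⟨m', g1, _, g2⟩
        exact ⟨m', (ih (by omega) m').1 g1, g2⟩
      · rintro ⟨m', g1, g2⟩
        refine ⟨m', (ih (by omega) m').2 g1, ?_, g2⟩
        have := hM _ _ _ (hle _ _ g1) g2
        omega
  have hNRs : ∀ γ t c, c ≤ b γ → (NR (((γ, t), ct γ t), c) ↔ ¬ R γ (t + 1) c) := by
    intro γ t c hc
    have e0 := (itr_bd (fun a m m' => m' = m ∨ (m' = m + 1 ∧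
      (R γ t a ∧ ¬ E ((γ, a), c) ∧ a ≠ c))) (b γ + 1) (by
        rintro a m m' hm (h | ⟨h, _⟩) <;> omega) (b γ + 1) le_rfl (ct γ t)).trans
          (itr_guess (fun a => R γ t a ∧ ¬ E ((γ, a), c) ∧ a ≠ c) (b γ + 1) (ct γ t))
    refine Iff.trans e0 ?_
    show cnt (fun c => R γ t c) (b γ + 1) ≤ _ ↔ _
    constructor
    · intro hle hR'
      have hlt : cnt (fun a => R γ t a ∧ ¬ E ((γ, a), c) ∧ a ≠ c) (b γ + 1) <
          cnt (fun a => R γ t a) (b γ + 1) := by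
        rcases hR' with hR' | ⟨a, hR', hEa⟩
        · exact cnt_lt (fun a _ h => h.1) (a := c) (by omega) hR' (fun h => h.2.2 rfl)
        · have ha := (h1 γ a c hEa).1
          exact cnt_lt (fun a _ h => h.1) (a := a) (by omega) hR' (fun h => h.2.1 hEa)
      omega
    · intro hR'
      refine cnt_mono fun a _ ha => ⟨ha, fun hEa => hR' (Or.inr ⟨a, ha, hEa⟩),
        fun hac => hR' (Or.inl ?_)⟩
      rw [← hac]
      exact ha
  -- the next number, in the context (((γ, t), r), r')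
  let SC : ((Γ × ℕ) × ℕ) × ℕ → Prop := fun p =>
    Itr (fun c m m' => m' ≤ b p.1.1.1 + 1 ∧ ((m' = m + 1 ∧ R p.1.1.1 (p.1.1.2 + 1) c) ∨
      (m' = m ∧ NR (p.1, c)))) 0 (b p.1.1.1 + 1) p.2
  have hSC : Np C SC := by
    have hM : Np C (fun u : (((((Γ × ℕ) × ℕ) × ℕ) × ℕ) × ℕ) × ℕ =>
        u.2 ≤ b u.1.1.1.1.1.1 + 1 ∧ ((u.2 = u.1.2 + 1 ∧
          R u.1.1.1.1.1.1 (u.1.1.1.1.1.2 + 1) u.1.1.2) ∨
          (u.2 = u.1.2 ∧ NR (u.1.1.1.1, u.1.1.2)))) := by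
      have u11 : Rn (fun u : (((((Γ × ℕ) × ℕ) × ℕ) × ℕ) × ℕ) × ℕ => u.1.1.1) :=
        (Rn.fst.comp Rn.fst).comp Rn.fst
      have uγ : Rn (fun u : (((((Γ × ℕ) × ℕ) × ℕ) × ℕ) × ℕ) × ℕ => u.1.1.1.1.1.1) :=
        u11.comp p111
      have ut : Vr (fun u : (((((Γ × ℕ) × ℕ) × ℕ) × ℕ) × ℕ) × ℕ => u.1.1.1.1.1.2) :=
        Vr.snd.ren (u11.comp (Rn.fst.comp Rn.fst))
      have ua : Vr (fun u : (((((Γ × ℕ) × ℕ) × ℕ) × ℕ) × ℕ) × ℕ => u.1.1.2) :=
        Vr.snd.ren (Rn.fst.comp Rn.fst)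
      have um : Vr (fun u : (((((Γ × ℕ) × ℕ) × ℕ) × ℕ) × ℕ) × ℕ => u.1.2) :=
        Vr.snd.ren Rn.fst
      have um' : Vr (fun u : (((((Γ × ℕ) × ℕ) × ℕ) × ℕ) × ℕ) × ℕ => u.2) := Vr.snd
      refine Np.and hC (Np.of_df hC (Df.lef hC (um'.fn hC) ((hb.ren hC uγ).add hC
        (Fn.nat hC 1)))) (Np.or hC (Np.and hC (Np.of_df hC (Df.eqf hC (um'.fn hC)
          ((um.fn hC).add hC (Fn.nat hC 1)))) ?_) (Np.and hC (Np.of_df hC (Df.eqf hC
            (um'.fn hC) (um.fn hC))) ?_))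
      · exact hR.map hC (φ := fun u : (((((Γ × ℕ) × ℕ) × ℕ) × ℕ) × ℕ) × ℕ =>
          ((u.1.1.1.1.1.1, u.1.1.1.1.1.2 + 1), u.1.1.2))
          (((uγ.mp hC).pair ((ut.fn hC).add hC (Fn.nat hC 1))).pair (ua.fn hC))
      · exact hNR.map hC (φ := fun u : (((((Γ × ℕ) × ℕ) × ℕ) × ℕ) × ℕ) × ℕ =>
          (u.1.1.1.1, u.1.1.2)) (((u11.comp Rn.fst).pair ua).mp hC)
    have h3 := np_itr (Γ := ((Γ × ℕ) × ℕ) × ℕ) hC hM (g := fun p => b p.1.1.1 + 1)
      (m0 := fun _ => 0) ((hb.ren hC p111).add hC (Fn.nat hC 1)) (Fn.nat hC 0)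
      (fun p a m m' h => h.1)
    exact h3.map hC (φ := fun p : ((Γ × ℕ) × ℕ) × ℕ => ((p, b p.1.1.1 + 1), p.2))
      (((Mp.id hC).pair ((hb.ren hC p111).add hC (Fn.nat hC 1))).pair (Vr.snd.fn hC))
  have hSCs : ∀ γ t r', SC (((γ, t), ct γ t), r') ↔ r' = ct γ (t + 1) := by
    intro γ t r'
    have e0 := (itr_bd (fun c m m' => (m' = m + 1 ∧ R γ (t + 1) c) ∨
      (m' = m ∧ NR (((γ, t), ct γ t), c))) (b γ + 1) (by
        rintro a m m' hm (⟨h, _⟩ | ⟨h, _⟩) <;> omega) (b γ + 1) le_rfl r').trans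
          (itr_exact (fun c => R γ (t + 1) c) (fun c => NR (((γ, t), ct γ t), c)) (b γ + 1)
            (fun c hc => hNRs γ t c (by omega)) r')
    exact e0
  -- the numbers, in the context ((γ, t), r)
  let r0 : Γ → ℕ := fun γ => if s γ ≤ b γ then 1 else 0
  have hr0 : ∀ γ, r0 γ = ct γ 0 := by
    intro γ
    exact cnt_eq_self
  have hCn : Np C (fun q : (Γ × ℕ) × ℕ => Itr (fun t r r' => r' ≤ b q.1.1 + 1 ∧
      SC (((q.1.1, t), r), r')) (r0 q.1.1) q.1.2 q.2) := by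
    have hM : Np C (fun p : ((Γ × ℕ) × ℕ) × ℕ => p.2 ≤ b p.1.1.1 + 1 ∧ SC p) :=
      Np.and hC (Np.of_df hC (Df.lef hC (Vr.snd.fn hC) ((hb.ren hC p111).add hC
        (Fn.nat hC 1)))) hSC
    exact np_itr (Γ := Γ) hC hM (g := fun γ => b γ + 1) (m0 := r0)
      (hb.add hC (Fn.nat hC 1)) (Fn.ite hC (Df.lef hC hs hb) (Fn.nat hC 1) (Fn.nat hC 0))
      (fun p a m m' h => h.1)
  have hCns : ∀ γ t r, Itr (fun t r r' => r' ≤ b γ + 1 ∧ SC (((γ, t), r), r')) (r0 γ) t r ↔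
      r = ct γ t := by
    intro γ t r
    rw [hr0]
    refine itr_fun _ (ct γ) (fun n m => ?_) t r
    rw [hSCs]
    constructor
    · rintro ⟨_, h⟩
      exact h
    · intro h
      exact ⟨by rw [h]; exact cnt_le _ _, h⟩
  -- the end
  have fin : Np C (fun γ : Γ => (b γ < e γ ∧ e γ ≠ s γ) ∨ (e γ ≤ b γ ∧
      ∃ r ≤ b γ + 1, Itr (fun t r r' => r' ≤ b γ + 1 ∧ SC (((γ, t), r), r')) (r0 γ) (b γ + 2) r ∧
        NR (((γ, b γ + 2), r), e γ))) := by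
    refine Np.or hC (Np.of_df hC ((Df.ltf hC hb he).and hC ((Df.eqf hC he hs).not hC)))
      (Np.and hC (Np.of_df hC (Df.lef hC he hb)) ?_)
    refine Np.ex hC (P := fun p : Γ × ℕ => Itr (fun t r r' => r' ≤ b p.1 + 1 ∧
      SC (((p.1, t), r), r')) (r0 p.1) (b p.1 + 2) p.2 ∧
        NR (((p.1, b p.1 + 2), p.2), e p.1)) ?_ (hb.add hC (Fn.nat hC 1))
    have hb2 : Fn C (fun p : Γ × ℕ => b p.1 + 2) := (hb.fst hC).add hC (Fn.nat hC 2)
    refine Np.and hC ?_ ?_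
    · exact hCn.map hC (φ := fun p : Γ × ℕ => ((p.1, b p.1 + 2), p.2))
        (((Rn.fst.mp hC).pair hb2).pair (Vr.snd.fn hC))
    · exact hNR.map hC (φ := fun p : Γ × ℕ => (((p.1, b p.1 + 2), p.2), e p.1))
        ((((Rn.fst.mp hC).pair hb2).pair (Vr.snd.fn hC)).pair (he.fst hC))
  refine fin.congr fun γ => ?_
  have hEγ : ∀ a a', E ((γ, a), a') → a ≤ b γ ∧ a' ≤ b γ := h1 γ
  rw [h2]
  rcases Nat.lt_or_ge (b γ) (e γ) with h3 | h3
  · constructor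
    · intro hn
      refine Or.inl ⟨h3, fun hes => hn ?_⟩
      rw [hes]
    · rintro (⟨_, hes⟩ | ⟨h4, _⟩) hr
      · rcases rch_le hEγ _ _ ((rch_sat hEγ (e γ)).1 hr) with h5 | h5
        · exact hes h5
        · omega
      · omega
  · have key : (∃ r ≤ b γ + 1, Itr (fun t r r' => r' ≤ b γ + 1 ∧ SC (((γ, t), r), r')) (r0 γ)
        (b γ + 2) r ∧ NR (((γ, b γ + 2), r), e γ)) ↔ ¬ R γ (b γ + 3) (e γ) := by
      constructor
      · rintro ⟨r, _, g1, g2⟩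
        rw [hCns] at g1
        rw [g1, hNRs γ _ _ h3] at g2
        exact g2
      · intro hn
        exact ⟨ct γ (b γ + 2), cnt_le _ _, (hCns _ _ _).2 rfl, (hNRs γ _ _ h3).2 hn⟩
    constructor
    · intro hn
      refine Or.inr ⟨h3, key.2 fun hr => hn (rch_sound _ _ hr)⟩
    · rintro (⟨h4, _⟩ | ⟨_, h4⟩) hr
      · omega
      · exact key.1 h4 (rch_mono (by omega) ((rch_sat hEγ (e γ)).1 hr))

/-- Nondeterministic linear space is closed under Boolean operations and bounded quantification. -/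
theorem clo_nlin : Clo NLin where
  eq n p q := e2s_nlin (clo_E2s.eq n p q)
  le n p q := e2s_nlin (clo_E2s.le n p q)
  not n P hP := nlin_of_np (Np.not clo_E2s (np_of_nlin hP))
  and n P Q hP hQ := nlin_of_np (Np.and clo_E2s (np_of_nlin hP) (np_of_nlin hQ))
  ex n P p hP := by
    have hC := clo_E2s
    have h1 : Np E2s (fun q : (Fin n → ℕ) × ℕ => P (Matrix.vecCons q.2 q.1)) :=
      (np_of_nlin hP).map hC (φ := fun q : (Fin n → ℕ) × ℕ =>
        (Matrix.vecCons q.2 q.1 : Fin (n + 1) → ℕ)) (Rn.mp hC fun i => ⟨i, fun _ => rfl⟩)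
    exact nlin_of_np (Np.ex hC h1 (Fn.poly (Γ := Fin n → ℕ) hC p))
  ren n m ρ P hP := by
    have hC := clo_E2s
    exact nlin_of_np ((np_of_nlin hP).map hC (φ := fun (v : Fin m → ℕ) (i : Fin n) => v (ρ i))
      (Rn.mp hC fun i => ⟨ρ i, fun _ => rfl⟩))

end Pool.Agent.TH762.E2
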