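import Pool.Agent.TH762.E2.Def

set_option autoImplicit false

/-!
The relations defined by bounded formulas, and the relations and functions of the class `E^2` of
Grzegorczyk.
-/

namespace Pool.Agent.TH762.E2

open MvPolynomial

/-- The relations defined by bounded formulas. -/
def Delta0 (k : ℕ) : Set ((Fin k → ℕ) → Prop) :=
  {R | ∀ D : (n : ℕ) → Set ((Fin n → ℕ) → Prop),
    (∀ (n : ℕ) (p q : MvPolynomial (Fin n) ℕ),
      (fun v : Fin n → ℕ => MvPolynomial.eval v p = MvPolynomial.eval v q) ∈ D n) →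
    (∀ (n : ℕ) (p q : MvPolynomial (Fin n) ℕ),
      (fun v : Fin n → ℕ => MvPolynomial.eval v p ≤ MvPolynomial.eval v q) ∈ D n) →
    (∀ (n : ℕ) (P : (Fin n → ℕ) → Prop), P ∈ D n →
      (fun v : Fin n → ℕ => ¬ P v) ∈ D n) →
    (∀ (n : ℕ) (P Q : (Fin n → ℕ) → Prop), P ∈ D n → Q ∈ D n →
      (fun v : Fin n → ℕ => P v ∧ Q v) ∈ D n) →
    (∀ (n : ℕ) (P : (Fin (n + 1) → ℕ) → Prop) (p : MvPolynomial (Fin n) ℕ),
      P ∈ D (n + 1) →
      (fun v : Fin n → ℕ => ∃ x, x ≤ MvPolynomial.eval v p ∧ P (Matrix.vecCons x v)) ∈ D n) →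
    R ∈ D k}

/-- The functions of the class `E^2`. -/
def E2 (k : ℕ) (f : (Fin k → ℕ) → ℕ) : Prop :=
  ∀ S : (n : ℕ) → Set ((Fin n → ℕ) → ℕ),
    (∀ n : ℕ, (fun _ : Fin n → ℕ => (0 : ℕ)) ∈ S n) →
    (fun v : Fin 1 → ℕ => v 0 + 1) ∈ S 1 →
    (∀ (n : ℕ) (i : Fin n), (fun v : Fin n → ℕ => v i) ∈ S n) →
    (fun v : Fin 2 → ℕ => (v 0 + 1) * (v 1 + 1)) ∈ S 2 →
    (∀ (n m : ℕ) (g : (Fin m → ℕ) → ℕ) (hs : Fin m → (Fin n → ℕ) → ℕ),
      g ∈ S m → (∀ i, hs i ∈ S n) →
      (fun v : Fin n → ℕ => g (fun i => hs i v)) ∈ S n) →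
    (∀ (n : ℕ) (g : (Fin n → ℕ) → ℕ) (h : (Fin (n + 2) → ℕ) → ℕ)
      (b : (Fin (n + 1) → ℕ) → ℕ) (F : (Fin (n + 1) → ℕ) → ℕ),
      g ∈ S n → h ∈ S (n + 2) → b ∈ S (n + 1) →
      (∀ v : Fin (n + 1) → ℕ, F v ≤ b v) →
      (∀ v : Fin n → ℕ, F (Matrix.vecCons 0 v) = g v) →
      (∀ (v : Fin n → ℕ) (y : ℕ),
        F (Matrix.vecCons (y + 1) v) =
          h (Matrix.vecCons (F (Matrix.vecCons y v)) (Matrix.vecCons y v))) →
      F ∈ S (n + 1)) →
    f ∈ S k

/-- The relations of the class `E^2`. -/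
def E2s (k : ℕ) : Set ((Fin k → ℕ) → Prop) :=
  {R | ∃ f, E2 k f ∧ ∀ v : Fin k → ℕ, (R v → f v = 0) ∧ (¬ R v → f v = 1)}

/-- Bounded formulas are closed under renaming the variables. -/
theorem clo_delta0 : Clo Delta0 where
  eq n p q := fun _ h1 _ _ _ _ => h1 n p q
  le n p q := fun _ _ h2 _ _ _ => h2 n p q
  not n P hP := fun D h1 h2 h3 h4 h5 => h3 n P (hP D h1 h2 h3 h4 h5)
  and n P Q hP hQ := fun D h1 h2 h3 h4 h5 => h4 n P Q (hP D h1 h2 h3 h4 h5) (hQ D h1 h2 h3 h4 h5)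
  ex n P p hP := fun D h1 h2 h3 h4 h5 => h5 n P p (hP D h1 h2 h3 h4 h5)
  ren n m ρ P hP := by
    intro D h1 h2 h3 h4 h5
    have key := hP (fun n => {P | ∀ (m : ℕ) (ρ : Fin n → Fin m),
      (fun v : Fin m → ℕ => P (fun i => v (ρ i))) ∈ D m}) ?_ ?_ ?_ ?_ ?_
    · exact key m ρ
    · intro n p q m ρ
      have := h1 m (rename ρ p) (rename ρ q)
      refine Set.mem_of_eq_of_mem (funext fun v => ?_) this
      rw [eval_rename, eval_rename]
      rfl
    · intro n p q m ρ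
      have := h2 m (rename ρ p) (rename ρ q)
      refine Set.mem_of_eq_of_mem (funext fun v => ?_) this
      rw [eval_rename, eval_rename]
      rfl
    · intro n P hP m ρ
      exact h3 m _ (hP m ρ)
    · intro n P Q hP hQ m ρ
      exact h4 m _ _ (hP m ρ) (hQ m ρ)
    · intro n P p hP m ρ
      have := h5 m _ (rename ρ p) (hP (m + 1) (Fin.cases 0 (fun i => (ρ i).succ)))
      refine Set.mem_of_eq_of_mem (funext fun v => ?_) this
      refine propext (exists_congr fun x => ?_)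
      rw [eval_rename]
      refine and_congr Iff.rfl ?_
      have : (Matrix.vecCons x fun i => v (ρ i)) = fun i : Fin (n + 1) =>
          Matrix.vecCons x v (Fin.cases (0 : Fin (m + 1)) (fun i => (ρ i).succ) i) := by
        funext i
        refine Fin.cases ?_ (fun i => ?_) i
        · rfl
        · rfl
      show P (Matrix.vecCons x fun i => v (ρ i)) ↔ _
      rw [this]

theorem E2.zero (n : ℕ) : E2 n (fun _ : Fin n → ℕ => (0 : ℕ)) :=
  fun _ h1 _ _ _ _ _ => h1 n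

theorem E2.proj (n : ℕ) (i : Fin n) : E2 n (fun v : Fin n → ℕ => v i) :=
  fun _ _ _ h3 _ _ _ => h3 n i

theorem E2.comp {n m : ℕ} {g : (Fin m → ℕ) → ℕ} {hs : Fin m → (Fin n → ℕ) → ℕ}
    (hg : E2 m g) (hh : ∀ i, E2 n (hs i)) : E2 n (fun v : Fin n → ℕ => g (fun i => hs i v)) :=
  fun S h1 h2 h3 h4 h5 h6 => h5 n m g hs (hg S h1 h2 h3 h4 h5 h6)
    fun i => hh i S h1 h2 h3 h4 h5 h6

theorem E2.lrec {n : ℕ} {g : (Fin n → ℕ) → ℕ} {h : (Fin (n + 2) → ℕ) → ℕ}
    {b : (Fin (n + 1) → ℕ) → ℕ} {F : (Fin (n + 1) → ℕ) → ℕ} (hg : E2 n g) (hh : E2 (n + 2) h)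
    (hb : E2 (n + 1) b) (h1 : ∀ v : Fin (n + 1) → ℕ, F v ≤ b v)
    (h2 : ∀ v : Fin n → ℕ, F (Matrix.vecCons 0 v) = g v)
    (h3 : ∀ (v : Fin n → ℕ) (y : ℕ), F (Matrix.vecCons (y + 1) v) =
      h (Matrix.vecCons (F (Matrix.vecCons y v)) (Matrix.vecCons y v))) : E2 (n + 1) F :=
  fun S a1 a2 a3 a4 a5 a6 => a6 n g h b F (hg S a1 a2 a3 a4 a5 a6) (hh S a1 a2 a3 a4 a5 a6)
    (hb S a1 a2 a3 a4 a5 a6) h1 h2 h3

variable {n : ℕ}

theorem E2.congr {f g : (Fin n → ℕ) → ℕ} (h : E2 n f) (e : ∀ v, g v = f v) : E2 n g := by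
  have : g = f := funext e
  rw [this]
  exact h

theorem E2.succ {f : (Fin n → ℕ) → ℕ} (hf : E2 n f) : E2 n (fun v => f v + 1) := by
  have h : E2 1 (fun v : Fin 1 → ℕ => v 0 + 1) := fun _ _ h2 _ _ _ _ => h2
  exact E2.comp (hs := fun _ => f) h fun _ => hf

theorem E2.const (c : ℕ) : E2 n (fun _ : Fin n → ℕ => c) := by
  induction c with
  | zero => exact E2.zero n
  | succ c ih => exact ih.succ

theorem E2.mul1 {f g : (Fin n → ℕ) → ℕ} (hf : E2 n f) (hg : E2 n g) :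
    E2 n (fun v => (f v + 1) * (g v + 1)) := by
  have h : E2 2 (fun v : Fin 2 → ℕ => (v 0 + 1) * (v 1 + 1)) := fun _ _ _ _ h4 _ _ => h4
  have := E2.comp (hs := ![f, g]) h (by
    intro i
    fin_cases i
    · exact hf
    · exact hg)
  exact this

/-- Recursion with one parameter. -/
theorem E2.rec1 {F : ℕ → ℕ → ℕ} {g : ℕ → ℕ} {h : ℕ → ℕ → ℕ → ℕ} {b : ℕ → ℕ → ℕ}
    (hg : E2 1 (fun v : Fin 1 → ℕ => g (v 0)))
    (hh : E2 3 (fun v : Fin 3 → ℕ => h (v 0) (v 1) (v 2)))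
    (hb : E2 2 (fun v : Fin 2 → ℕ => b (v 0) (v 1)))
    (h1 : ∀ y x, F y x ≤ b y x) (h2 : ∀ x, F 0 x = g x) (h3 : ∀ y x, F (y + 1) x = h (F y x) y x)
    {f f' : (Fin n → ℕ) → ℕ} (hf : E2 n f) (hf' : E2 n f') :
    E2 n (fun v => F (f v) (f' v)) := by
  have key : E2 2 (fun v : Fin 2 → ℕ => F (v 0) (v 1)) :=
    E2.lrec hg hh hb (fun v => h1 _ _) (fun v => h2 _) (fun v y => h3 _ _)
  have := E2.comp (hs := ![f, f']) key (by
    intro i
    fin_cases i
    · exact hf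
    · exact hf')
  exact this

theorem E2.add {f g : (Fin n → ℕ) → ℕ} (hf : E2 n f) (hg : E2 n g) :
    E2 n (fun v => f v + g v) :=
  E2.rec1 (F := fun y x => y + x) (g := fun x => x) (h := fun r _ _ => r + 1)
    (b := fun y x => (y + 1) * (x + 1)) (E2.proj 1 0) (E2.proj 3 0).succ
    ((E2.proj 2 0).mul1 (E2.proj 2 1)) (fun y x => by nlinarith) (fun x => Nat.zero_add x)
    (fun y x => Nat.succ_add y x) hf hg

theorem E2.mul {f g : (Fin n → ℕ) → ℕ} (hf : E2 n f) (hg : E2 n g) :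
    E2 n (fun v => f v * g v) :=
  E2.rec1 (F := fun y x => y * x) (g := fun _ => 0) (h := fun r _ x => r + x)
    (b := fun y x => (y + 1) * (x + 1)) (E2.zero 1) ((E2.proj 3 0).add (E2.proj 3 2))
    ((E2.proj 2 0).mul1 (E2.proj 2 1)) (fun y x => by nlinarith) (fun x => Nat.zero_mul x)
    (fun y x => Nat.succ_mul y x) hf hg

theorem E2.pred {f : (Fin n → ℕ) → ℕ} (hf : E2 n f) : E2 n (fun v => f v - 1) :=
  E2.rec1 (F := fun y _ => y - 1) (g := fun _ => 0) (h := fun _ y _ => y)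
    (b := fun y _ => y) (E2.zero 1) (E2.proj 3 1) (E2.proj 2 0) (fun y x => Nat.sub_le _ _)
    (fun x => rfl) (fun y x => rfl) hf hf

theorem E2.sub {f g : (Fin n → ℕ) → ℕ} (hf : E2 n f) (hg : E2 n g) :
    E2 n (fun v => f v - g v) :=
  E2.rec1 (F := fun y x => x - y) (g := fun x => x) (h := fun r _ _ => r - 1)
    (b := fun _ x => x) (E2.proj 1 0) (E2.proj 3 0).pred (E2.proj 2 1)
    (fun y x => Nat.sub_le _ _) (fun x => rfl) (fun y x => rfl) hg hf

theorem E2.poly (b : MvPolynomial (Fin n) ℕ) : E2 n (fun v : Fin n → ℕ => eval v b) := by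
  induction b using MvPolynomial.induction_on with
  | C a => exact (E2.const (n := n) a).congr fun v => by rw [eval_C]
  | add p q hp hq => exact (hp.add hq).congr fun v => by rw [eval_add]
  | mul_X p i hp => exact (hp.mul (E2.proj n i)).congr fun v => by rw [eval_mul, eval_X]

/-- The characteristic function (0 for true) from any function with the zeros `R`. -/
theorem E2s.of_zero {R : (Fin n → ℕ) → Prop} {f : (Fin n → ℕ) → ℕ} (hf : E2 n f)
    (h : ∀ v, R v ↔ f v = 0) : R ∈ E2s n := by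
  refine ⟨fun v => 1 - (1 - f v), (E2.const 1).sub ((E2.const 1).sub hf), fun v => ⟨fun hR => ?_,
    fun hR => ?_⟩⟩
  · have := (h v).1 hR
    beta_reduce
    omega
  · have : f v ≠ 0 := fun h' => hR ((h v).2 h')
    beta_reduce
    omega

theorem E2s.zero {R : (Fin n → ℕ) → Prop} (h : R ∈ E2s n) :
    ∃ f, E2 n f ∧ (∀ v, f v ≤ 1) ∧ ∀ v, R v ↔ f v = 0 := by
  classical
  obtain ⟨f, hf, h⟩ := h
  refine ⟨f, hf, fun v => ?_, fun v => ⟨(h v).1, fun h0 => ?_⟩⟩
  · by_cases hR : R v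
    · rw [(h v).1 hR]; omega
    · rw [(h v).2 hR]
  · by_contra hR
    have := (h v).2 hR
    omega

theorem E2s.comp {m : ℕ} {R : (Fin m → ℕ) → Prop} (h : R ∈ E2s m)
    {hs : Fin m → (Fin n → ℕ) → ℕ} (hh : ∀ i, E2 n (hs i)) :
    (fun v : Fin n → ℕ => R (fun i => hs i v)) ∈ E2s n := by
  obtain ⟨f, hf, h⟩ := h
  exact ⟨_, hf.comp hh, fun v => h _⟩

open Classical in
/-- The characteristic value, 0 for true. -/
noncomputable def ch (p : Prop) : ℕ := if p then 0 else 1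

theorem ch_pos {p : Prop} (h : p) : ch p = 0 := if_pos h

theorem ch_neg {p : Prop} (h : ¬ p) : ch p = 1 := if_neg h

theorem ch_le (p : Prop) : ch p ≤ 1 := by
  by_cases h : p
  · rw [ch_pos h]; omega
  · rw [ch_neg h]

theorem E2s.bex {P : (Fin (n + 1) → ℕ) → Prop} (hP : P ∈ E2s (n + 1)) {b : (Fin n → ℕ) → ℕ}
    (hb : E2 n b) : (fun v : Fin n → ℕ => ∃ x, x ≤ b v ∧ P (Matrix.vecCons x v)) ∈ E2s n := by
  classical
  obtain ⟨f, hf, hf1, h⟩ := E2s.zero hP
  let F : (Fin (n + 1) → ℕ) → ℕ := fun w =>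
    ch (∃ x, x ≤ w 0 ∧ P (Matrix.vecCons x (Fin.tail w)))
  have hF : E2 (n + 1) F := by
    refine E2.lrec (g := fun v => f (Matrix.vecCons 0 v))
      (h := fun u => u 0 * f (Matrix.vecCons (u 1 + 1) (Fin.tail (Fin.tail u))))
      (b := fun _ => 1) ?_ ?_ (E2.const 1) ?_ ?_ ?_
    · have := hf.comp (n := n) (hs := Fin.cases (fun _ => 0) (fun i v => v i)) (by
        intro i
        refine Fin.cases ?_ (fun i => ?_) i
        · exact E2.zero n
        · exact E2.proj n i)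
      refine this.congr fun v => ?_
      congr 1
      funext i
      refine Fin.cases ?_ (fun i => ?_) i
      · rfl
      · rfl
    · refine (E2.proj (n + 2) 0).mul ?_
      have := hf.comp (n := n + 2) (hs := Fin.cases (fun u => u 1 + 1) (fun i u => u i.succ.succ))
        (by
          intro i
          refine Fin.cases ?_ (fun i => ?_) i
          · exact (E2.proj (n + 2) 1).succ
          · exact E2.proj (n + 2) i.succ.succ)
      refine this.congr fun v => ?_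
      congr 1
      funext i
      refine Fin.cases ?_ (fun i => ?_) i
      · rfl
      · rfl
    · intro v
      exact ch_le _
    · intro v
      show ch (∃ x, x ≤ 0 ∧ P (Matrix.vecCons x v)) = f (Matrix.vecCons 0 v)
      by_cases h0 : P (Matrix.vecCons 0 v)
      · rw [ch_pos ⟨0, le_rfl, h0⟩, (h _).1 h0]
      · rw [ch_neg]
        · have h1 := hf1 (Matrix.vecCons 0 v)
          have h2 : f (Matrix.vecCons 0 v) ≠ 0 := fun h' => h0 ((h _).2 h')
          omega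
        · rintro ⟨x, hx, hP⟩
          have : x = 0 := by omega
          subst this
          exact h0 hP
    · intro v y
      show ch (∃ x, x ≤ y + 1 ∧ P (Matrix.vecCons x v)) =
        ch (∃ x, x ≤ y ∧ P (Matrix.vecCons x v)) * f (Matrix.vecCons (y + 1) v)
      by_cases h0 : ∃ x, x ≤ y ∧ P (Matrix.vecCons x v)
      · obtain ⟨x, hx, hP⟩ := h0
        rw [ch_pos ⟨x, by omega, hP⟩, ch_pos ⟨x, hx, hP⟩, Nat.zero_mul]
      · rw [ch_neg h0, Nat.one_mul]
        by_cases h1 : P (Matrix.vecCons (y + 1) v)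
        · rw [ch_pos ⟨y + 1, le_rfl, h1⟩, (h _).1 h1]
        · rw [ch_neg]
          · have h3 := hf1 (Matrix.vecCons (y + 1) v)
            have h2 : f (Matrix.vecCons (y + 1) v) ≠ 0 := fun h' => h1 ((h _).2 h')
            omega
          · rintro ⟨x, hx, hP⟩
            rcases Nat.lt_or_ge y x with h5 | h5
            · have : x = y + 1 := by omega
              subst this
              exact h1 hP
            · exact h0 ⟨x, h5, hP⟩
  have h4 := hF.comp (n := n) (hs := Fin.cases b (fun i v => v i)) (by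
    intro i
    refine Fin.cases ?_ (fun i => ?_) i
    · exact hb
    · exact E2.proj n i)
  refine E2s.of_zero h4 fun v => ?_
  show _ ↔ ch (∃ x, x ≤ b v ∧ P (Matrix.vecCons x v)) = 0
  by_cases h0 : ∃ x, x ≤ b v ∧ P (Matrix.vecCons x v)
  · exact ⟨fun _ => ch_pos h0, fun _ => h0⟩
  · exact ⟨fun h' => absurd h' h0, fun h' => by rw [ch_neg h0] at h'; omega⟩

theorem clo_E2s : Clo E2s where
  eq n p q := E2s.of_zero
    (((E2.poly p).sub (E2.poly q)).add ((E2.poly q).sub (E2.poly p))) fun v => by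
      beta_reduce; omega
  le n p q := E2s.of_zero ((E2.poly p).sub (E2.poly q)) fun v => by beta_reduce; omega
  not n P hP := by
    obtain ⟨f, hf, hf1, h⟩ := E2s.zero hP
    refine E2s.of_zero ((E2.const 1).sub hf) fun v => ?_
    have := hf1 v
    beta_reduce
    rw [h v]
    omega
  and n P Q hP hQ := by
    obtain ⟨f, hf, hf1, h⟩ := E2s.zero hP
    obtain ⟨f', hf', hf1', h'⟩ := E2s.zero hQ
    refine E2s.of_zero (hf.add hf') fun v => ?_
    beta_reduce
    rw [h v, h' v]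
    omega
  ex n P p hP := E2s.bex hP (E2.poly p)
  ren n m ρ P hP := E2s.comp hP fun i => E2.proj m (ρ i)

/-- Bounded formulas define relations of the class. -/
theorem delta0_sub {R : (Fin n → ℕ) → Prop} (h : R ∈ Delta0 n) : R ∈ E2s n :=
  h E2s clo_E2s.eq clo_E2s.le clo_E2s.not clo_E2s.and clo_E2s.ex

/-- The graph of a function of the class. -/
theorem fn_of_E2 {f : (Fin n → ℕ) → ℕ} (hf : E2 n f) {b : MvPolynomial (Fin n) ℕ}
    (hb : ∀ v, f v ≤ eval v b) : Fn E2s f := by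
  refine ⟨⟨fun w => w 0 = f (Fin.tail w), ?_, fun p => Iff.rfl⟩, b, hb⟩
  have h1 : E2 (n + 1) (fun w : Fin (n + 1) → ℕ => f (Fin.tail w)) :=
    hf.comp fun i => E2.proj (n + 1) i.succ
  have h2 := E2.proj (n + 1) 0
  refine E2s.of_zero ((h2.sub h1).add (h1.sub h2)) fun w => ?_
  beta_reduce
  omega

/-- Definable functions bounded by a constant are in the class. -/
theorem E2_of_fn {f : (Fin n → ℕ) → ℕ} (hf : Fn E2s f) {k : ℕ} (hk : ∀ v, f v ≤ k) :
    E2 n f := by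
  classical
  have key : ∀ k : ℕ, E2 n (fun v => min (f v) k) := by
    intro k
    induction k with
    | zero =>
      exact (E2.zero n).congr fun v => by simp
    | succ k ih =>
      obtain ⟨R, hR, h⟩ := Df.lef clo_E2s (Fn.nat clo_E2s (k + 1)) hf
      obtain ⟨g, hg, h'⟩ := hR
      refine (ih.add ((E2.const 1).sub hg)).congr fun v => ?_
      have h1 := h v
      have h2 := h' v
      beta_reduce
      by_cases h3 : k + 1 ≤ f v
      · have h4 := h2.1 (h1.1 h3)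
        omega
      · have h4 := h2.2 (fun h5 => h3 (h1.2 h5))
        omega
  refine (key k).congr fun v => ?_
  have := hk v
  beta_reduce
  omega

/-- Functions of the class are bounded by polynomials. -/
theorem E2.bound {f : (Fin n → ℕ) → ℕ} (hf : E2 n f) :
    ∃ b : MvPolynomial (Fin n) ℕ, ∀ v, f v ≤ eval v b := by
  refine hf (fun n => {f | ∃ b : MvPolynomial (Fin n) ℕ, ∀ v, f v ≤ eval v b}) ?_ ?_ ?_ ?_ ?_ ?_
  · intro n
    exact ⟨0, fun v => Nat.zero_le _⟩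
  · exact ⟨X 0 + 1, fun v => by simp⟩
  · intro n i
    exact ⟨X i, fun v => by simp⟩
  · exact ⟨(X 0 + 1) * (X 1 + 1), fun v => by simp⟩
  · rintro n m g hs ⟨b, hb⟩ hh
    choose c hc using hh
    refine ⟨bind₁ c b, fun v => (hb _).trans ?_⟩
    have e : eval v (bind₁ c b) = eval (fun i => eval v (c i)) b :=
      eval₂Hom_bind₁ (RingHom.id ℕ) v c b
    rw [e]
    exact eval_mono b fun i => hc i v
  · rintro n g h b F _ _ ⟨c, hc⟩ hF _ _
    exact ⟨c, fun v => (hF v).trans (hc v)⟩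

end Pool.Agent.TH762.E2
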