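import Mathlib

set_option autoImplicit false

/-!
Relations on the natural numbers that are defined by bounded formulas over a class of relations.
-/

namespace Pool.Agent.TH762.E2

open MvPolynomial

/-- Closure under polynomial equations and inequalities, Boolean operations, bounded
quantification and renaming of variables. -/
structure Clo (D : (n : ℕ) → Set ((Fin n → ℕ) → Prop)) : Prop where
  eq : ∀ (n : ℕ) (p q : MvPolynomial (Fin n) ℕ),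
    (fun v : Fin n → ℕ => eval v p = eval v q) ∈ D n
  le : ∀ (n : ℕ) (p q : MvPolynomial (Fin n) ℕ),
    (fun v : Fin n → ℕ => eval v p ≤ eval v q) ∈ D n
  not : ∀ (n : ℕ) (P : (Fin n → ℕ) → Prop), P ∈ D n → (fun v : Fin n → ℕ => ¬ P v) ∈ D n
  and : ∀ (n : ℕ) (P Q : (Fin n → ℕ) → Prop), P ∈ D n → Q ∈ D n →
    (fun v : Fin n → ℕ => P v ∧ Q v) ∈ D n
  ex : ∀ (n : ℕ) (P : (Fin (n + 1) → ℕ) → Prop) (p : MvPolynomial (Fin n) ℕ), P ∈ D (n + 1) →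
    (fun v : Fin n → ℕ => ∃ x, x ≤ eval v p ∧ P (Matrix.vecCons x v)) ∈ D n
  ren : ∀ (n m : ℕ) (ρ : Fin n → Fin m) (P : (Fin n → ℕ) → Prop), P ∈ D n →
    (fun v : Fin m → ℕ => P (fun i => v (ρ i))) ∈ D m

/-- A type of tuples of numbers. -/
class Cx (Γ : Type) where
  n : ℕ
  x : Γ → Fin n → ℕ

instance cxFin (n : ℕ) : Cx (Fin n → ℕ) := ⟨n, fun v => v⟩

instance cxNat (Γ : Type) [Cx Γ] : Cx (Γ × ℕ) :=
  ⟨Cx.n Γ + 1, fun p => Matrix.vecCons p.2 (Cx.x p.1)⟩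

instance cxVec (Γ : Type) [Cx Γ] (m : ℕ) : Cx (Γ × (Fin m → ℕ)) :=
  ⟨Cx.n Γ + m, fun p => Fin.append (Cx.x p.1) p.2⟩

variable {D : (n : ℕ) → Set ((Fin n → ℕ) → Prop)} {Γ Δ Λ : Type} [Cx Γ] [Cx Δ] [Cx Λ]

/-- Definable predicates. -/
def Df (D : (n : ℕ) → Set ((Fin n → ℕ) → Prop)) {Γ : Type} [Cx Γ] (P : Γ → Prop) : Prop :=
  ∃ R ∈ D (Cx.n Γ), ∀ γ, P γ ↔ R (Cx.x γ)

/-- Definable functions that are bounded by a polynomial. -/
def Fn (D : (n : ℕ) → Set ((Fin n → ℕ) → Prop)) {Γ : Type} [Cx Γ] (f : Γ → ℕ) : Prop :=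
  Df D (fun p : Γ × ℕ => p.2 = f p.1) ∧
    ∃ b : MvPolynomial (Fin (Cx.n Γ)) ℕ, ∀ γ, f γ ≤ eval (Cx.x γ) b

/-- A variable. -/
def Vr (f : Γ → ℕ) : Prop := ∃ j : Fin (Cx.n Γ), ∀ γ, f γ = Cx.x γ j

/-- A renaming of the variables. -/
def Rn (φ : Γ → Δ) : Prop := ∀ i : Fin (Cx.n Δ), Vr (fun γ => Cx.x (φ γ) i)

theorem Df.congr {P Q : Γ → Prop} (h : Df D P) (hPQ : ∀ γ, Q γ ↔ P γ) : Df D Q := by
  obtain ⟨R, hR, h⟩ := h
  exact ⟨R, hR, fun γ => (hPQ γ).trans (h γ)⟩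

theorem Vr.ren {f : Δ → ℕ} (hf : Vr f) {φ : Γ → Δ} (hφ : Rn φ) : Vr (fun γ => f (φ γ)) := by
  obtain ⟨j, hj⟩ := hf
  obtain ⟨i, hi⟩ := hφ j
  exact ⟨i, fun γ => (hj _).trans (hi γ)⟩

theorem Rn.comp {φ : Γ → Δ} {ψ : Δ → Λ} (hφ : Rn φ) (hψ : Rn ψ) : Rn (fun γ => ψ (φ γ)) :=
  fun i => (hψ i).ren hφ

theorem Rn.id : Rn (fun γ : Γ => γ) := fun i => ⟨i, fun _ => rfl⟩

theorem Vr.snd : Vr (fun p : Γ × ℕ => p.2) := ⟨(0 : Fin (Cx.n Γ + 1)), fun _ => rfl⟩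

theorem Rn.fst : Rn (fun p : Γ × ℕ => p.1) :=
  fun i => ⟨(i.succ : Fin (Cx.n Γ + 1)), fun _ => rfl⟩

theorem Vr.sndV {m : ℕ} (i : Fin m) : Vr (fun p : Γ × (Fin m → ℕ) => p.2 i) :=
  ⟨(Fin.natAdd (Cx.n Γ) i : Fin (Cx.n Γ + m)), fun _ => (Fin.append_right _ _ _).symm⟩

theorem Rn.fstV {m : ℕ} : Rn (fun p : Γ × (Fin m → ℕ) => p.1) :=
  fun i => ⟨(Fin.castAdd m i : Fin (Cx.n Γ + m)), fun _ => (Fin.append_left _ _ _).symm⟩

theorem Vr.fin {n : ℕ} (i : Fin n) : Vr (fun v : Fin n → ℕ => v i) := ⟨i, fun _ => rfl⟩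

theorem Rn.pair {φ : Γ → Δ} (hφ : Rn φ) {f : Γ → ℕ} (hf : Vr f) : Rn (fun γ => (φ γ, f γ)) := by
  intro i
  change Fin (Cx.n Δ + 1) at i
  refine Fin.cases ?_ (fun i => ?_) i
  · exact hf
  · exact hφ i

theorem Rn.pairV {m : ℕ} {φ : Γ → Δ} (hφ : Rn φ) {f : Γ → Fin m → ℕ}
    (hf : ∀ i, Vr (fun γ => f γ i)) : Rn (fun γ => (φ γ, f γ)) := by
  intro i
  change Fin (Cx.n Δ + m) at i
  refine Fin.addCases (fun i => ?_) (fun i => ?_) i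
  · obtain ⟨j, hj⟩ := hφ i
    exact ⟨j, fun γ => (Fin.append_left _ _ _).trans (hj γ)⟩
  · obtain ⟨j, hj⟩ := hf i
    exact ⟨j, fun γ => (Fin.append_right _ _ _).trans (hj γ)⟩

theorem Rn.toFin {m : ℕ} {f : Γ → Fin m → ℕ} (hf : ∀ i, Vr (fun γ => f γ i)) : Rn f := hf

theorem Df.ren (hD : Clo D) {P : Δ → Prop} (h : Df D P) {φ : Γ → Δ} (hφ : Rn φ) :
    Df D (fun γ => P (φ γ)) := by
  obtain ⟨R, hR, h⟩ := h
  choose ρ hρ using hφ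
  refine ⟨_, hD.ren _ _ ρ R hR, fun γ => ?_⟩
  have : Cx.x (φ γ) = fun i => Cx.x γ (ρ i) := funext fun i => hρ i γ
  show P (φ γ) ↔ R (fun i => Cx.x γ (ρ i))
  rw [h, this]

theorem Df.not (hD : Clo D) {P : Γ → Prop} (h : Df D P) : Df D (fun γ => ¬ P γ) := by
  obtain ⟨R, hR, h⟩ := h
  exact ⟨_, hD.not _ R hR, fun γ => not_congr (h γ)⟩

theorem Df.and (hD : Clo D) {P Q : Γ → Prop} (h : Df D P) (h' : Df D Q) :
    Df D (fun γ => P γ ∧ Q γ) := by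
  obtain ⟨R, hR, h⟩ := h
  obtain ⟨R', hR', h'⟩ := h'
  exact ⟨_, hD.and _ R R' hR hR', fun γ => and_congr (h γ) (h' γ)⟩

theorem Df.or (hD : Clo D) {P Q : Γ → Prop} (h : Df D P) (h' : Df D Q) :
    Df D (fun γ => P γ ∨ Q γ) :=
  (((h.not hD).and hD (h'.not hD)).not hD).congr fun γ => by tauto

theorem Df.imp (hD : Clo D) {P Q : Γ → Prop} (h : Df D P) (h' : Df D Q) :
    Df D (fun γ => P γ → Q γ) :=
  ((h.not hD).or hD h').congr fun γ => by tauto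

theorem Df.iff (hD : Clo D) {P Q : Γ → Prop} (h : Df D P) (h' : Df D Q) :
    Df D (fun γ => (P γ ↔ Q γ)) :=
  ((h.imp hD h').and hD (h'.imp hD h)).congr fun γ => by tauto

theorem Df.exP (hD : Clo D) {P : Γ × ℕ → Prop} (h : Df D P)
    (b : MvPolynomial (Fin (Cx.n Γ)) ℕ) :
    Df D (fun γ => ∃ y ≤ eval (Cx.x γ) b, P (γ, y)) := by
  obtain ⟨R, hR, h⟩ := h
  refine ⟨_, hD.ex _ R b hR, fun γ => ?_⟩
  exact exists_congr fun y => and_congr_right fun _ => h (γ, y)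

theorem Df.true (hD : Clo D) : Df D (fun _ : Γ => True) :=
  ⟨_, hD.eq _ 0 0, fun γ => by simp⟩

theorem Df.const (hD : Clo D) (p : Prop) : Df D (fun _ : Γ => p) := by
  by_cases h : p
  · exact (Df.true hD).congr fun _ => by simp [h]
  · exact ((Df.true hD).not hD).congr fun _ => by simp [h]

/-- Substitution for the last variable. -/
theorem Df.sub (hD : Clo D) {Q : Γ × ℕ → Prop} (hQ : Df D Q) {f : Γ → ℕ} (hf : Fn D f) :
    Df D (fun γ => Q (γ, f γ)) := by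
  obtain ⟨hg, b, hb⟩ := hf
  refine ((hg.and hD hQ).exP hD b).congr fun γ => ?_
  constructor
  · intro h
    exact ⟨f γ, hb γ, rfl, h⟩
  · rintro ⟨y, _, hy, h⟩
    have hy' : y = f γ := hy
    show Q (γ, f γ)
    rw [← hy']
    exact h

theorem Df.subV (hD : Clo D) : ∀ (m : ℕ) {Γ : Type} [Cx Γ] (f : Γ → Fin m → ℕ)
    (_ : ∀ i, Fn D (fun γ => f γ i)) (Q : Γ × (Fin m → ℕ) → Prop) (_ : Df D Q),
    (∀ i, ∀ {Δ : Type} [Cx Δ] {φ : Δ → Γ}, Rn φ → Fn D (fun γ => f (φ γ) i)) →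
    Df D (fun γ => Q (γ, f γ)) := by
  intro m
  induction m with
  | zero =>
    intro Γ _ f _ Q hQ _
    exact hQ.ren hD (φ := fun γ => (γ, f γ)) (Rn.id.pairV fun i => i.elim0)
  | succ m ih =>
    intro Γ _ f hf Q hQ hr
    have h1 : Df D (fun q : (Γ × (Fin m → ℕ)) × ℕ => Q (q.1.1, Fin.cons q.2 q.1.2)) :=
      hQ.ren hD (φ := fun q : (Γ × (Fin m → ℕ)) × ℕ =>
        (q.1.1, (Fin.cons q.2 q.1.2 : Fin (m + 1) → ℕ)))
        ((Rn.fst.comp Rn.fstV).pairV (fun i => by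
          refine Fin.cases ?_ (fun i => ?_) i
          · exact Vr.snd
          · exact (Vr.sndV i).ren Rn.fst))
    have h2 : Df D (fun q : Γ × (Fin m → ℕ) => Q (q.1, Fin.cons (f q.1 0) q.2)) :=
      h1.sub hD (hr 0 Rn.fstV)
    have h3 := ih (fun γ => Fin.tail (f γ)) (fun i => hf i.succ) _ h2
      (fun i _ _ _ hφ => hr i.succ hφ)
    refine h3.congr fun γ => ?_
    have : (Fin.cons (f γ 0) (Fin.tail (f γ)) : Fin (m + 1) → ℕ) = f γ := Fin.cons_self_tail _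
    show _ ↔ Q (γ, Fin.cons (f γ 0) (Fin.tail (f γ)))
    rw [this]

theorem Fn.ren (hD : Clo D) {f : Δ → ℕ} (hf : Fn D f) {φ : Γ → Δ} (hφ : Rn φ) :
    Fn D (fun γ => f (φ γ)) := by
  obtain ⟨hg, b, hb⟩ := hf
  refine ⟨hg.ren hD (φ := fun p : Γ × ℕ => (φ p.1, p.2)) ((Rn.fst.comp hφ).pair Vr.snd), ?_⟩
  choose ρ hρ using hφ
  refine ⟨rename ρ b, fun γ => (hb _).trans (le_of_eq ?_)⟩
  rw [eval_rename]
  have : Cx.x (φ γ) = Cx.x γ ∘ ρ := funext fun i => hρ i γ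
  rw [this]

/-- Maps with definable components. -/
def Mp (D : (n : ℕ) → Set ((Fin n → ℕ) → Prop)) {Γ Δ : Type} [Cx Γ] [Cx Δ] (φ : Γ → Δ) : Prop :=
  ∀ i : Fin (Cx.n Δ), Fn D (fun γ => Cx.x (φ γ) i)

theorem Df.map (hD : Clo D) {P : Δ → Prop} (h : Df D P) {φ : Γ → Δ} (hφ : Mp D φ) :
    Df D (fun γ => P (φ γ)) := by
  obtain ⟨R, hR, h⟩ := h
  have h1 : Df D (fun q : Γ × (Fin (Cx.n Δ) → ℕ) => R q.2) :=
    Df.ren hD (P := fun v : Fin (Cx.n Δ) → ℕ => R v) ⟨R, hR, fun _ => Iff.rfl⟩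
      (φ := fun q : Γ × (Fin (Cx.n Δ) → ℕ) => q.2) (fun i => Vr.sndV i)
  exact (Df.subV hD (Cx.n Δ) (fun γ => Cx.x (φ γ)) hφ _ h1
    (fun i _ _ _ hψ => (hφ i).ren hD hψ)).congr fun γ => h _

theorem eval_mono {n : ℕ} (b : MvPolynomial (Fin n) ℕ) {u v : Fin n → ℕ} (h : ∀ i, u i ≤ v i) :
    eval u b ≤ eval v b := by
  rw [eval_eq, eval_eq]
  refine Finset.sum_le_sum fun d _ => Nat.mul_le_mul_left _ ?_
  exact Finset.prod_le_prod' fun i _ => Nat.pow_le_pow_left (h i) _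

theorem Vr.fn (hD : Clo D) {f : Γ → ℕ} (hf : Vr f) : Fn D f := by
  obtain ⟨j, hj⟩ := hf
  refine ⟨⟨_, hD.eq (Cx.n Γ + 1) (X 0) (X j.succ), fun p => ?_⟩, X j, fun γ => ?_⟩
  · show p.2 = f p.1 ↔ _
    rw [eval_X, eval_X, hj]
    exact Iff.rfl
  · rw [eval_X, hj]

theorem Rn.mp (hD : Clo D) {φ : Γ → Δ} (hφ : Rn φ) : Mp D φ := fun i => (hφ i).fn hD

theorem Mp.id (hD : Clo D) : Mp D (fun γ : Γ => γ) := Rn.id.mp hD

theorem Mp.pair {φ : Γ → Δ} (hφ : Mp D φ) {f : Γ → ℕ} (hf : Fn D f) :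
    Mp D (fun γ => (φ γ, f γ)) := by
  intro i
  change Fin (Cx.n Δ + 1) at i
  refine Fin.cases ?_ (fun i => ?_) i
  · exact hf
  · exact hφ i

theorem Fn.congr {f g : Γ → ℕ} (h : Fn D f) (hfg : ∀ γ, g γ = f γ) : Fn D g := by
  have : g = f := funext hfg
  rw [this]
  exact h

theorem Mp.pairV {m : ℕ} {φ : Γ → Δ} (hφ : Mp D φ) {f : Γ → Fin m → ℕ}
    (hf : ∀ i, Fn D (fun γ => f γ i)) : Mp D (fun γ => (φ γ, f γ)) := by
  intro i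
  change Fin (Cx.n Δ + m) at i
  refine Fin.addCases (fun i => ?_) (fun i => ?_) i
  · exact (hφ i).congr fun γ => Fin.append_left _ _ _
  · exact (hf i).congr fun γ => Fin.append_right _ _ _

theorem Fn.map (hD : Clo D) {f : Δ → ℕ} (hf : Fn D f) {φ : Γ → Δ} (hφ : Mp D φ) :
    Fn D (fun γ => f (φ γ)) := by
  obtain ⟨hg, b, hb⟩ := hf
  refine ⟨hg.map hD (φ := fun p : Γ × ℕ => (φ p.1, p.2))
    (Mp.pair (fun i => (hφ i).ren hD Rn.fst) (Vr.snd.fn hD)), ?_⟩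
  refine ⟨bind₁ (fun i => (hφ i).2.choose) b, fun γ => (hb _).trans ?_⟩
  have e : eval (Cx.x γ) (bind₁ (fun i => (hφ i).2.choose) b) =
      eval (fun i => eval (Cx.x γ) (hφ i).2.choose) b := by
    have := eval₂Hom_bind₁ (RingHom.id ℕ) (Cx.x γ) (fun i => (hφ i).2.choose) b
    exact this
  rw [e]
  exact eval_mono b fun i => (hφ i).2.choose_spec γ

theorem Mp.comp (hD : Clo D) {φ : Γ → Δ} {ψ : Δ → Λ} (hφ : Mp D φ) (hψ : Mp D ψ) :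
    Mp D (fun γ => ψ (φ γ)) := fun i => (hψ i).map hD hφ

theorem Fn.fst (hD : Clo D) {f : Γ → ℕ} (hf : Fn D f) : Fn D (fun p : Γ × ℕ => f p.1) :=
  hf.ren hD Rn.fst

theorem Df.fst (hD : Clo D) {P : Γ → Prop} (h : Df D P) : Df D (fun p : Γ × ℕ => P p.1) :=
  h.ren hD Rn.fst

theorem Df.eqf (hD : Clo D) {f g : Γ → ℕ} (hf : Fn D f) (hg : Fn D g) :
    Df D (fun γ => f γ = g γ) := by
  have h1 : Df D (fun q : (Γ × ℕ) × ℕ => q.1.2 = q.2) := by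
    refine ⟨_, hD.eq (Cx.n Γ + 1 + 1) (X 1) (X 0), fun p => ?_⟩
    rw [eval_X, eval_X]
    exact Iff.rfl
  exact (h1.sub hD (hg.fst hD)).sub hD hf

theorem Df.lef (hD : Clo D) {f g : Γ → ℕ} (hf : Fn D f) (hg : Fn D g) :
    Df D (fun γ => f γ ≤ g γ) := by
  have h1 : Df D (fun q : (Γ × ℕ) × ℕ => q.1.2 ≤ q.2) := by
    refine ⟨_, hD.le (Cx.n Γ + 1 + 1) (X 1) (X 0), fun p => ?_⟩
    rw [eval_X, eval_X]
    exact Iff.rfl
  exact (h1.sub hD (hg.fst hD)).sub hD hf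

theorem Df.ltf (hD : Clo D) {f g : Γ → ℕ} (hf : Fn D f) (hg : Fn D g) :
    Df D (fun γ => f γ < g γ) :=
  ((Df.lef hD hg hf).not hD).congr fun γ => by omega

theorem Df.ex (hD : Clo D) {P : Γ × ℕ → Prop} (h : Df D P) {b : Γ → ℕ} (hb : Fn D b) :
    Df D (fun γ => ∃ y ≤ b γ, P (γ, y)) := by
  obtain ⟨c, hc⟩ := hb.2
  refine (((Df.lef hD (Vr.snd.fn hD) (hb.fst hD)).and hD h).exP hD c).congr fun γ => ?_
  constructor
  · rintro ⟨y, h1, h2⟩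
    exact ⟨y, h1.trans (hc γ), h1, h2⟩
  · rintro ⟨y, _, h1, h2⟩
    exact ⟨y, h1, h2⟩

theorem Df.all (hD : Clo D) {P : Γ × ℕ → Prop} (h : Df D P) {b : Γ → ℕ} (hb : Fn D b) :
    Df D (fun γ => ∀ y ≤ b γ, P (γ, y)) :=
  (((h.not hD).ex hD hb).not hD).congr fun γ => by push Not; exact Iff.rfl

theorem Fn.of_le {f g : Γ → ℕ} (h : Df D (fun p : Γ × ℕ => p.2 = f p.1))
    (hg : Fn D g) (hfg : ∀ γ, f γ ≤ g γ) : Fn D f := by
  obtain ⟨c, hc⟩ := hg.2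
  exact ⟨h, c, fun γ => (hfg γ).trans (hc γ)⟩

theorem Fn.nat (hD : Clo D) (c : ℕ) : Fn D (fun _ : Γ => c) := by
  refine ⟨⟨_, hD.eq (Cx.n Γ + 1) (X 0) (C c), fun p => ?_⟩, C c, fun γ => ?_⟩
  · rw [eval_X, eval_C]
    exact Iff.rfl
  · rw [eval_C]

theorem Fn.add (hD : Clo D) {f g : Γ → ℕ} (hf : Fn D f) (hg : Fn D g) :
    Fn D (fun γ => f γ + g γ) := by
  have h1 : Df D (fun q : ((Γ × ℕ) × ℕ) × ℕ => q.1.1.2 = q.1.2 + q.2) := by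
    refine ⟨_, hD.eq (Cx.n Γ + 1 + 1 + 1) (X 2) (X 1 + X 0), fun p => ?_⟩
    rw [eval_X, eval_add, eval_X, eval_X]
    exact Iff.rfl
  refine ⟨(h1.sub hD ((hg.fst hD).fst hD)).sub hD (hf.fst hD), ?_⟩
  obtain ⟨a, ha⟩ := hf.2
  obtain ⟨b, hb⟩ := hg.2
  refine ⟨a + b, fun γ => ?_⟩
  rw [eval_add]
  exact Nat.add_le_add (ha γ) (hb γ)

theorem Fn.mul (hD : Clo D) {f g : Γ → ℕ} (hf : Fn D f) (hg : Fn D g) :
    Fn D (fun γ => f γ * g γ) := by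
  have h1 : Df D (fun q : ((Γ × ℕ) × ℕ) × ℕ => q.1.1.2 = q.1.2 * q.2) := by
    refine ⟨_, hD.eq (Cx.n Γ + 1 + 1 + 1) (X 2) (X 1 * X 0), fun p => ?_⟩
    rw [eval_X, eval_mul, eval_X, eval_X]
    exact Iff.rfl
  refine ⟨(h1.sub hD ((hg.fst hD).fst hD)).sub hD (hf.fst hD), ?_⟩
  obtain ⟨a, ha⟩ := hf.2
  obtain ⟨b, hb⟩ := hg.2
  refine ⟨a * b, fun γ => ?_⟩
  rw [eval_mul]
  exact Nat.mul_le_mul (ha γ) (hb γ)

theorem Fn.poly (hD : Clo D) (b : MvPolynomial (Fin (Cx.n Γ)) ℕ) :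
    Fn D (fun γ : Γ => eval (Cx.x γ) b) := by
  refine ⟨⟨_, hD.eq (Cx.n Γ + 1) (X 0) (rename Fin.succ b), fun p => ?_⟩, b, fun γ => le_rfl⟩
  rw [eval_X, eval_rename]
  exact Iff.rfl

theorem Fn.ite (hD : Clo D) {P : Γ → Prop} [DecidablePred P] (hP : Df D P) {f g : Γ → ℕ}
    (hf : Fn D f) (hg : Fn D g) : Fn D (fun γ => if P γ then f γ else g γ) := by
  refine Fn.of_le (g := fun γ => f γ + g γ) ?_ (hf.add hD hg) ?_
  · refine (((hP.fst hD).and hD (Df.eqf hD (Vr.snd.fn hD) (hf.fst hD))).or hD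
      (((hP.fst hD).not hD).and hD (Df.eqf hD (Vr.snd.fn hD) (hg.fst hD)))).congr fun p => ?_
    by_cases h : P p.1 <;> simp [h]
  · intro γ
    split_ifs <;> omega

theorem Fn.min (hD : Clo D) {f g : Γ → ℕ} (hf : Fn D f) (hg : Fn D g) :
    Fn D (fun γ => min (f γ) (g γ)) := by
  refine (Fn.ite hD (Df.lef hD hf hg) hf hg).congr fun γ => ?_
  by_cases h : f γ ≤ g γ
  · simp [h]
  · rw [if_neg h, min_eq_right (by omega)]

theorem Df.fin (hD : Clo D) {m : ℕ} {P : Fin m → Γ → Prop} (h : ∀ i, Df D (P i)) :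
    Df D (fun γ => ∀ i, P i γ) := by
  induction m with
  | zero => exact (Df.true hD).congr fun γ => by simp
  | succ m ih => exact ((h 0).and hD (ih fun i => h i.succ)).congr fun γ => Fin.forall_fin_succ

theorem Df.exfin (hD : Clo D) {m : ℕ} {P : Fin m → Γ → Prop} (h : ∀ i, Df D (P i)) :
    Df D (fun γ => ∃ i, P i γ) :=
  ((Df.fin hD fun i => (h i).not hD).not hD).congr fun γ => by push Not; exact Iff.rfl

theorem Df.exlt (hD : Clo D) {P : ℕ → Γ → Prop} (h : ∀ i, Df D (P i)) (m : ℕ) :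
    Df D (fun γ => ∃ i < m, P i γ) := by
  refine (Df.exfin hD (m := m) fun i => h i.val).congr fun γ => ?_
  constructor
  · rintro ⟨i, hi, h⟩
    exact ⟨⟨i, hi⟩, h⟩
  · rintro ⟨i, h⟩
    exact ⟨i.val, i.2, h⟩

/-- Quantification over a tuple. -/
theorem Df.exV (hD : Clo D) : ∀ (m : ℕ) {Γ : Type} [Cx Γ] {P : Γ × (Fin m → ℕ) → Prop}
    (_ : Df D P) {b : Γ → ℕ} (_ : Fn D b),
    Df D (fun γ => ∃ c : Fin m → ℕ, (∀ i, c i ≤ b γ) ∧ P (γ, c)) := by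
  intro m
  induction m with
  | zero =>
    intro Γ _ P hP b _
    refine (hP.ren hD (φ := fun γ => (γ, Fin.elim0)) (Rn.id.pairV fun i => i.elim0)).congr
      fun γ => ?_
    constructor
    · rintro ⟨c, _, h⟩
      have : c = Fin.elim0 := funext fun i => i.elim0
      rw [← this]
      exact h
    · intro h
      exact ⟨_, fun i => i.elim0, h⟩
  | succ m ih =>
    intro Γ _ P hP b hb
    have h1 : Df D (fun q : (Γ × (Fin m → ℕ)) × ℕ => P (q.1.1, Fin.cons q.2 q.1.2)) :=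
      hP.ren hD (φ := fun q : (Γ × (Fin m → ℕ)) × ℕ =>
        (q.1.1, (Fin.cons q.2 q.1.2 : Fin (m + 1) → ℕ)))
        ((Rn.fst.comp Rn.fstV).pairV (fun i => by
          refine Fin.cases ?_ (fun i => ?_) i
          · exact Vr.snd
          · exact (Vr.sndV i).ren Rn.fst))
    have h2 := ih (h1.ex hD (hb.ren hD Rn.fstV)) hb
    refine h2.congr fun γ => ?_
    constructor
    · rintro ⟨c, hc, h⟩
      refine ⟨Fin.tail c, fun i => hc i.succ, c 0, hc 0, ?_⟩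
      show P (γ, Fin.cons (c 0) (Fin.tail c))
      rw [Fin.cons_self_tail]
      exact h
    · rintro ⟨c, hc, y, hy, h⟩
      refine ⟨Fin.cons y c, fun i => ?_, h⟩
      refine Fin.cases ?_ (fun i => ?_) i
      · exact hy
      · exact hc i

theorem Df.allV (hD : Clo D) {m : ℕ} {P : Γ × (Fin m → ℕ) → Prop} (h : Df D P) {b : Γ → ℕ}
    (hb : Fn D b) : Df D (fun γ => ∀ c : Fin m → ℕ, (∀ i, c i ≤ b γ) → P (γ, c)) :=
  ((Df.exV hD m (h.not hD) hb).not hD).congr fun γ => by push Not; exact Iff.rfl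

end Pool.Agent.TH762.E2
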