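import Pool.Agent.TH762.E2.Avd

set_option autoImplicit false

/-!
The general engine: a function on positions whose graph can be checked, and whose tuples have
short lists of candidates, is definable.
-/

namespace Pool.Agent.TH762.E2

open MvPolynomial
open Pool.Agent.TH762.MC (Tn ExL Few world)

variable {C D : (n : ℕ) → Set ((Fin n → ℕ) → Prop)} {Γ Δ : Type} [Cx Γ] [Cx Δ] {k : ℕ}

/-- Contexts that are coded by one number. -/
def Cd (C D : (n : ℕ) → Set ((Fin n → ℕ) → Prop)) (Γ : Type) [Cx Γ] : Prop :=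
  ∃ (δ : (Fin 1 → ℕ) → Γ) (κ : Γ → (Fin 1 → ℕ)), Mp C δ ∧ Mp D κ ∧ ∀ γ, δ (κ γ) = γ

theorem Cd.of_map (hC : Clo C) (hD : Clo D) (h : Cd C D Γ) {α : Γ → Δ} {β : Δ → Γ} (hα : Mp C α)
    (hβ : Mp D β) (e : ∀ d, α (β d) = d) : Cd C D Δ := by
  obtain ⟨δ, κ, h1, h2, h3⟩ := h
  exact ⟨fun v => α (δ v), fun d => κ (β d), Mp.comp hC h1 hα, Mp.comp hD hβ h2,
    fun d => (congrArg α (h3 _)).trans (e d)⟩

theorem Cd.one (hC : Clo C) (hD : Clo D) : Cd C D (Fin 1 → ℕ) :=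
  ⟨fun v => v, fun v => v, Mp.id hC, Mp.id hD, fun _ => rfl⟩

theorem Cd.nat (hC : Clo C) (hD : Clo D) (h : Cd C D Γ) : Cd C D (Γ × ℕ) := by
  obtain ⟨δ, κ, h1, h2, h3⟩ := h
  have h0 : Fn C (fun v : Fin 1 → ℕ => v 0) := (Vr.fin 0).fn hC
  have hk : Fn D (fun p : Γ × ℕ => κ p.1 0) := (h2 0).fst hD
  have hs : Fn D (fun p : Γ × ℕ => p.2) := Vr.snd.fn hD
  refine ⟨fun v => (δ (fun _ => dc1 (v 0)), dc2 (v 0)),
    fun p _ => (κ p.1 0 + p.2) * (κ p.1 0 + p.2) + κ p.1 0, ?_, ?_, ?_⟩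
  · exact Mp.pair (Mp.comp hC (φ := fun (v : Fin 1 → ℕ) (_ : Fin 1) => dc1 (v 0))
      (fun _ => h0.dc1 hC) h1) (h0.dc2 hC)
  · intro i
    exact ((hk.add hD hs).mul hD (hk.add hD hs)).add hD hk
  · rintro ⟨γ, y⟩
    show (δ (fun _ => dc1 ((κ γ 0 + y) * (κ γ 0 + y) + κ γ 0)),
      dc2 ((κ γ 0 + y) * (κ γ 0 + y) + κ γ 0)) = (γ, y)
    rw [(dc_code _ _).1, (dc_code _ _).2]
    have : (fun _ : Fin 1 => κ γ 0) = κ γ := by
      funext i
      rw [Subsingleton.elim i 0]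
    rw [this, h3]

theorem Cd.vec (hC : Clo C) (hD : Clo D) (h : Cd C D Γ) : ∀ m : ℕ, Cd C D (Γ × (Fin m → ℕ)) := by
  intro m
  induction m with
  | zero =>
    refine h.of_map hC hD (α := fun γ => (γ, Fin.elim0)) (β := fun p => p.1)
      ((Rn.id.pairV fun i => i.elim0).mp hC) (Rn.fstV.mp hD) ?_
    rintro ⟨γ, c⟩
    show (γ, Fin.elim0) = (γ, c)
    congr 1
    funext i
    exact i.elim0
  | succ m ih =>
    refine (ih.nat hC hD).of_map hC hD (Δ := Γ × (Fin (m + 1) → ℕ))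
      (α := fun q : (Γ × (Fin m → ℕ)) × ℕ => (q.1.1, (Fin.cons q.2 q.1.2 : Fin (m + 1) → ℕ)))
      (β := fun p => ((p.1, Fin.tail p.2), p.2 0)) ?_ ?_ ?_
    · refine Rn.mp hC ((Rn.fst.comp Rn.fstV).pairV (fun i => ?_))
      refine Fin.cases ?_ (fun i => ?_) i
      · exact Vr.snd
      · exact (Vr.sndV i).ren Rn.fst
    · exact Rn.mp hD ((Rn.fstV.pairV fun i => Vr.sndV i.succ).pair (Vr.sndV 0))
    · rintro ⟨γ, c⟩
      show (γ, (Fin.cons (c 0) (Fin.tail c) : Fin (m + 1) → ℕ)) = (γ, c)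
      rw [Fin.cons_self_tail]

theorem Cd.fin (hC : Clo C) (hD : Clo D) : ∀ n : ℕ, Cd C D (Fin n → ℕ) := by
  intro n
  have h := (Cd.one hC hD).vec hC hD n
  refine h.of_map hC hD (α := fun q : (Fin 1 → ℕ) × (Fin n → ℕ) => q.2)
    (β := fun v => ((fun _ => 0), v)) ?_ ?_ (fun _ => rfl)
  · exact Rn.mp hC (fun i => Vr.sndV i)
  · exact Mp.pairV (fun i => Fn.nat hD 0) (fun i => (Vr.fin i).fn hD)

/-- The lists of patterns from the relations that name wrong counts. -/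
theorem lists_of_ex (hD : Clo D) {N : Γ → ℕ} (hND : Fn D N) {τ : Γ → ℕ → ℕ}
    {Ex : ℕ → (Γ × (Fin k → ℕ)) × (Fin (k + 1) → ℕ) → Prop} (hEx : ∀ c, Df D (Ex c))
    (hEx2 : ∀ q, (∃ c ≤ k, Ex c q) ∧ ((∀ i : Fin k, q.2 i.castSucc < q.2 i.succ) →
      ∀ c : Fin (k + 1), q.2 c = Nat.ofDigits (N q.1.1 + 1) (List.ofFn fun i =>
        τ q.1.1 (q.1.2 i)) → ¬ Ex c.val q)) :
    ∃ L : Γ → List (ℕ × ℕ) → Prop,
      Df D (fun p : Lc Γ k => L (bs k p) (ls k p)) ∧ ∀ γ,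
        (∀ J : List ℕ, J.length = k → (∀ g ∈ J, g ≤ N γ) → L γ (J.map fun g => (g, τ γ g))) ∧
          Few (N γ) k (L γ) 0 := by
  classical
  refine ⟨fun γ l => ∀ c : Fin (k + 1) → ℕ, (∀ i, c i ≤ (N γ + 1) ^ k) →
    ((∀ i : Fin k, c i.castSucc < c i.succ) → ∀ s : Fin (k + 1),
      (c s = Nat.ofDigits (N γ + 1) (l.map Prod.snd) →
        ¬ Ex s.val ((γ, fun i : Fin k => (l.getD i.val (0, 0)).1), c))), ?_, fun γ => ⟨?_, ?_⟩⟩
  · have hM : Fn D (fun p : Lc Γ k => (N (bs k p) + 1) ^ k) :=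
      ((hND.ren hD (rn_bs k)).add hD (Fn.nat hD 1)).pow hD k
    refine Df.allV hD (P := fun q : Lc Γ k × (Fin (k + 1) → ℕ) =>
      (∀ i : Fin k, q.2 i.castSucc < q.2 i.succ) → ∀ s : Fin (k + 1),
      (q.2 s = Nat.ofDigits (N (bs k q.1) + 1) ((ls k q.1).map Prod.snd) →
        ¬ Ex s.val ((bs k q.1, fun i : Fin k => ((ls k q.1).getD i.val (0, 0)).1), q.2))) ?_ hM
    refine Df.imp hD (Df.fin hD fun i => Df.ltf hD ((Vr.sndV _).fn hD) ((Vr.sndV _).fn hD))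
      (Df.fin hD fun s => Df.imp hD (Df.eqf hD ((Vr.sndV _).fn hD)
        ((fn_digits hD hND k).ren hD Rn.fstV)) (Df.not hD ?_))
    exact (hEx s.val).ren hD (φ := fun q : Lc Γ k × (Fin (k + 1) → ℕ) =>
      ((bs k q.1, fun i : Fin k => ((ls k q.1).getD i.val (0, 0)).1), q.2))
      (((Rn.fstV.comp (rn_bs k)).pairV fun i => (vr_ls k i.val i.2).ren Rn.fstV).pairV
        fun i => Vr.sndV i)
  · intro J hJ hJN c _ hc s hs
    refine (hEx2 ((γ, fun i : Fin k => ((J.map fun g => (g, τ γ g)).getD i.val (0, 0)).1),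
      c)).2 hc s ?_
    have h2 : (List.ofFn fun i : Fin k =>
        τ γ (((J.map fun g => (g, τ γ g)).getD i.val (0, 0)).1)) = J.map (τ γ) := by
      apply List.ext_getElem
      · simp [hJ]
      · intro i hi1 hi2
        have hi3 : i < J.length := by simpa using hi2
        simp [List.getD_eq_getElem?_getD, hi3]
    have h3 : ((J.map fun g => (g, τ γ g)).map Prod.snd) = J.map (τ γ) := by
      rw [List.map_map]
      rfl
    rw [h3] at hs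
    show c s = Nat.ofDigits (N γ + 1) (List.ofFn fun i : Fin k =>
        τ γ (((J.map fun g => (g, τ γ g)).getD i.val (0, 0)).1))
    rw [h2]
    exact hs
  · intro J hJ hJN S hS
    by_contra hcon
    have hJk : J.length = k := by omega
    have hcard : k + 1 ≤ S.card := by omega
    let S' : Finset ℕ := S.image (Nat.ofDigits (N γ + 1))
    have hS' : S'.card = S.card := by
      refine Finset.card_image_of_injOn ?_
      intro p hp q hq he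
      have hp' := hS p hp
      have hq' := hS q hq
      exact ofDigits_inj p q (hp'.1.trans hq'.1.symm) hp'.2.1 hq'.2.1 he
    obtain ⟨T, hTS, hT⟩ := Finset.exists_subset_card_eq (show k + 1 ≤ S'.card by omega)
    let c : Fin (k + 1) → ℕ := fun i => T.orderEmbOfFin hT i
    have hcT : ∀ i, c i ∈ T := fun i => Finset.orderEmbOfFin_mem _ _ _
    have hcm : StrictMono c := (T.orderEmbOfFin hT).strictMono
    have hcS : ∀ i, ∃ p ∈ S, Nat.ofDigits (N γ + 1) p = c i := fun i => by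
      have := hTS (hcT i)
      rw [Finset.mem_image] at this
      exact this
    obtain ⟨s, hs, hEs⟩ := (hEx2 ((γ, fun i : Fin k => J.getD i.val 0), c)).1
    obtain ⟨p, hp, hpc⟩ := hcS ⟨s, by omega⟩
    have hp' := hS p hp
    have h1 := hp'.2.2 c (by
      intro i
      obtain ⟨q, hq, hqc⟩ := hcS i
      have hq' := hS q hq
      rw [← hqc]
      have := ofDigits_lt q hq'.2.1
      rw [hq'.1, hJk] at this
      exact this.le) (Fin.strictMono_iff_lt_succ.1 hcm) ⟨s, by omega⟩ (by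
        rw [← hpc]
        congr 1
        rw [← List.unzip_snd, List.unzip_zip_right (by rw [hp'.1])])
    apply h1
    have h2 : (fun i : Fin k => ((J.zip p).getD i.val (0, 0)).1) =
        fun i : Fin k => J.getD i.val 0 := by
      funext i
      have hi1 : i.val < J.length := by have := i.2; omega
      have hi2 : i.val < p.length := by rw [hp'.1]; exact hi1
      simp [List.getD_eq_getElem?_getD, hi1, hi2]
    rw [h2]
    exact hEs

/-- Change of the base of a list context. -/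
def lm {Γ Δ : Type} (φ : Δ → Γ) : ∀ m, Lc Δ m → Lc Γ m
  | 0, p => φ p
  | m + 1, p => (((lm φ m (p : (Lc Δ m × ℕ) × ℕ).1.1, (p : (Lc Δ m × ℕ) × ℕ).1.2),
      (p : (Lc Δ m × ℕ) × ℕ).2) : (Lc Γ m × ℕ) × ℕ)

theorem rn_lm {φ : Δ → Γ} (hφ : Rn φ) : ∀ m, Rn (lm φ m)
  | 0 => hφ
  | m + 1 => (((Rn.fst.comp Rn.fst).comp (rn_lm hφ m)).pair
      ((Vr.snd (Γ := Lc Δ m)).ren (φ := fun p : (Lc Δ m × ℕ) × ℕ => p.1) Rn.fst)).pair Vr.snd

theorem bs_lm {Γ Δ : Type} (φ : Δ → Γ) : ∀ m (p : Lc Δ m), bs m (lm φ m p) = φ (bs m p)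
  | 0, _ => rfl
  | m + 1, p => bs_lm φ m (p : (Lc Δ m × ℕ) × ℕ).1.1

theorem ls_lm {Γ Δ : Type} (φ : Δ → Γ) : ∀ m (p : Lc Δ m), ls m (lm φ m p) = ls m p
  | 0, _ => rfl
  | m + 1, p => by
    show (_, _) :: ls m (lm φ m (p : (Lc Δ m × ℕ) × ℕ).1.1) = _
    rw [ls_lm φ m]
    rfl

/-- The engine. -/
theorem engine (hD : Clo D) {N : Γ → ℕ} (hN : Fn D N) {τ : Γ → ℕ → ℕ}
    (hle : ∀ γ, ∀ g ≤ N γ, τ γ g ≤ N γ) {L : Γ → List (ℕ × ℕ) → Prop}
    (hL : Df D (fun p : Lc Γ k => L (bs k p) (ls k p)))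
    (hL2 : ∀ γ, (∀ J : List ℕ, J.length = k → (∀ g ∈ J, g ≤ N γ) →
      L γ (J.map fun g => (g, τ γ g))) ∧ Few (N γ) k (L γ) 0)
    (Ck : Γ → (ℕ → ℕ → Prop) → Prop)
    (h1 : ∀ γ Q, Ck γ Q → ∀ g ≤ N γ, ∀ w ≤ N γ, (Q g w ↔ w = τ γ g))
    (h2 : ∀ γ Q, (∀ g ≤ N γ, ∀ w ≤ N γ, (Q g w ↔ w = τ γ g)) → Ck γ Q)
    (h3 : ∀ {Δ : Type} [Cx Δ] (φ : Δ → Γ), Rn φ → ∀ Q : (Δ × ℕ) × ℕ → Prop, Df D Q →
      Df D (fun δ => Ck (φ δ) (fun g w => Q ((δ, g), w)))) :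
    Df D (fun q : (Γ × ℕ) × ℕ => (q.1.2 ≤ N q.1.1 ∧ q.2 ≤ N q.1.1) ∧ q.2 = τ q.1.1 q.1.2) := by
  classical
  have h11 : Rn (fun q : (Γ × ℕ) × ℕ => q.1.1) := Rn.fst.comp Rn.fst
  have hN' : Fn D (fun q : (Γ × ℕ) × ℕ => N q.1.1) := hN.ren hD h11
  have hL' : Df D (fun p : Lc ((Γ × ℕ) × ℕ) k => L (bs k p).1.1 (ls k p)) := by
    refine (hL.ren hD (rn_lm h11 k)).congr fun p => ?_
    rw [bs_lm, ls_lm]
  have key : Df D (fun q : (Γ × ℕ) × ℕ => ∃ d : Fin k,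
      ExL (N q.1.1) (fun l => Ck q.1.1 (fun g w => Tn (N q.1.1) (L q.1.1) d.val ((g, w) :: l)) ∧
        Tn (N q.1.1) (L q.1.1) d.val ((q.1.2, q.2) :: l)) (k - (d.val + 1)) []) := by
    refine Df.exfin hD fun d => ?_
    have hd := d.2
    refine exL_df hD hN' (K := k - (d.val + 1)) (P := fun (q : (Γ × ℕ) × ℕ) (l : List (ℕ × ℕ)) =>
      Ck q.1.1 (fun g w => Tn (N q.1.1) (L q.1.1) d.val ((g, w) :: l)) ∧
        Tn (N q.1.1) (L q.1.1) d.val ((q.1.2, q.2) :: l)) ?_ (k - (d.val + 1)) 0 (by omega)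
    set m := k - (d.val + 1) with hm
    have hQ : Df D (fun p : (Lc ((Γ × ℕ) × ℕ) m × ℕ) × ℕ =>
        Tn (N (bs m p.1.1).1.1) (L (bs m p.1.1).1.1) d.val ((p.1.2, p.2) :: ls m p.1.1)) :=
      tn_df hD hN' (L := fun q : (Γ × ℕ) × ℕ => L q.1.1) hL' d.val (m + 1) (by omega)
    have hb : Rn (bs (Γ := (Γ × ℕ) × ℕ) m) := rn_bs m
    refine Df.and hD (h3 (fun p : Lc ((Γ × ℕ) × ℕ) m => (bs m p).1.1) (hb.comp h11) _ hQ) ?_
    exact hQ.ren hD (φ := fun p : Lc ((Γ × ℕ) × ℕ) m => ((p, (bs m p).1.2), (bs m p).2))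
      ((Rn.id.pair ((Vr.snd.ren (φ := fun q : (Γ × ℕ) × ℕ => q.1) Rn.fst).ren hb)).pair
        (Vr.snd.ren hb))
  have hr : Df D (fun q : (Γ × ℕ) × ℕ => q.1.2 ≤ N q.1.1 ∧ q.2 ≤ N q.1.1) :=
    (Df.lef hD ((Vr.snd.ren (φ := fun q : (Γ × ℕ) × ℕ => q.1) Rn.fst).fn hD) hN').and hD
      (Df.lef hD (Vr.snd.fn hD) hN')
  refine (hr.and hD key).congr fun q => and_congr_right fun hq => ?_
  constructor
  · intro hqτ
    obtain ⟨hT, hFew⟩ := hL2 q.1.1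
    obtain ⟨d, hd, J, hJ, hJN, hw⟩ := world (N := N q.1.1) (k := k) (τ := τ q.1.1)
      (fun t ht => hle _ t ht) hT hFew
    refine ⟨⟨d, hd⟩, ?_⟩
    have hlen : k - (d + 1) = (J.map fun t => (t, τ q.1.1 t)).reverse.length := by
      simp; omega
    show ExL (N q.1.1) _ (k - (d + 1)) []
    rw [hlen]
    refine ExL.of _ [] ?_ ?_
    · intro e he
      rw [List.mem_reverse, List.mem_map] at he
      obtain ⟨t, ht, rfl⟩ := he
      exact ⟨hJN t ht, hle _ t (hJN t ht)⟩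
    · rw [List.reverse_reverse, List.append_nil]
      exact ⟨h2 _ _ hw, (hw _ hq.1 _ hq.2).2 hqτ⟩
  · rintro ⟨d, hd⟩
    refine ExL.sound ?_ _ _ hd
    rintro l ⟨g0, g1⟩
    exact (h1 _ _ g0 _ hq.1 _ hq.2).1 g1

end Pool.Agent.TH762.E2
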