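import Pool.Agent.TH762.E2.Cls

set_option autoImplicit false

/-!
Classes of functions that are closed under composition and limited recursion, and their predicates.
-/

namespace Pool.Agent.TH762.E2

open MvPolynomial

/-- Classes of functions closed under composition and limited recursion. -/
structure FCl (S : (n : ℕ) → ((Fin n → ℕ) → ℕ) → Prop) : Prop where
  zero : ∀ n : ℕ, S n (fun _ : Fin n → ℕ => (0 : ℕ))
  suc : S 1 (fun v : Fin 1 → ℕ => v 0 + 1)
  proj : ∀ (n : ℕ) (i : Fin n), S n (fun v : Fin n → ℕ => v i)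
  mul : S 2 (fun v : Fin 2 → ℕ => (v 0 + 1) * (v 1 + 1))
  comp : ∀ (n m : ℕ) (g : (Fin m → ℕ) → ℕ) (hs : Fin m → (Fin n → ℕ) → ℕ),
    S m g → (∀ i, S n (hs i)) → S n (fun v : Fin n → ℕ => g (fun i => hs i v))
  lrec : ∀ (n : ℕ) (g : (Fin n → ℕ) → ℕ) (h : (Fin (n + 2) → ℕ) → ℕ)
    (b : (Fin (n + 1) → ℕ) → ℕ) (F : (Fin (n + 1) → ℕ) → ℕ),
    S n g → S (n + 2) h → S (n + 1) b →
    (∀ v : Fin (n + 1) → ℕ, F v ≤ b v) →
    (∀ v : Fin n → ℕ, F (Matrix.vecCons 0 v) = g v) →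
    (∀ (v : Fin n → ℕ) (y : ℕ), F (Matrix.vecCons (y + 1) v) =
      h (Matrix.vecCons (F (Matrix.vecCons y v)) (Matrix.vecCons y v))) →
    S (n + 1) F

/-- The predicates of a class of functions. -/
def Pd (S : (n : ℕ) → ((Fin n → ℕ) → ℕ) → Prop) (k : ℕ) : Set ((Fin k → ℕ) → Prop) :=
  {R | ∃ f, S k f ∧ ∀ v : Fin k → ℕ, (R v → f v = 0) ∧ (¬ R v → f v = 1)}

variable {S : (n : ℕ) → ((Fin n → ℕ) → ℕ) → Prop} {n : ℕ}

/-- Every function of `E^2` is in the class. -/
theorem FCl.of_E2 (hS : FCl S) {f : (Fin n → ℕ) → ℕ} (hf : E2 n f) : S n f :=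
  hf (fun n => {f | S n f}) hS.zero hS.suc hS.proj hS.mul hS.comp hS.lrec

theorem FCl.cmp {m : ℕ} (hS : FCl S) {g : (Fin m → ℕ) → ℕ} {hs : Fin m → (Fin n → ℕ) → ℕ}
    (hg : S m g) (hh : ∀ i, S n (hs i)) : S n (fun v : Fin n → ℕ => g (fun i => hs i v)) :=
  hS.comp n m g hs hg hh

theorem FCl.app2 (hS : FCl S) {g : ℕ → ℕ → ℕ} (hg : E2 2 (fun v => g (v 0) (v 1)))
    {f f' : (Fin n → ℕ) → ℕ} (hf : S n f) (hf' : S n f') : S n (fun v => g (f v) (f' v)) :=
  hS.cmp (hs := ![f, f']) (hS.of_E2 hg) (by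
    intro i
    fin_cases i
    · exact hf
    · exact hf')

theorem FCl.congr (_ : FCl S) {f g : (Fin n → ℕ) → ℕ} (h : S n f) (e : ∀ v, g v = f v) :
    S n g := by
  have : g = f := funext e
  rw [this]
  exact h

theorem FCl.addf (hS : FCl S) {f g : (Fin n → ℕ) → ℕ} (hf : S n f) (hg : S n g) :
    S n (fun v => f v + g v) := hS.app2 ((E2.proj 2 0).add (E2.proj 2 1)) hf hg

theorem FCl.mulf (hS : FCl S) {f g : (Fin n → ℕ) → ℕ} (hf : S n f) (hg : S n g) :
    S n (fun v => f v * g v) := hS.app2 ((E2.proj 2 0).mul (E2.proj 2 1)) hf hg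

theorem FCl.subf (hS : FCl S) {f g : (Fin n → ℕ) → ℕ} (hf : S n f) (hg : S n g) :
    S n (fun v => f v - g v) := hS.app2 ((E2.proj 2 0).sub (E2.proj 2 1)) hf hg

theorem FCl.constf (hS : FCl S) (c : ℕ) : S n (fun _ => c) := hS.of_E2 (E2.const c)

theorem FCl.polyf (hS : FCl S) (b : MvPolynomial (Fin n) ℕ) :
    S n (fun v : Fin n → ℕ => eval v b) := hS.of_E2 (E2.poly b)

theorem Pd.of_zero (hS : FCl S) {R : (Fin n → ℕ) → Prop} {f : (Fin n → ℕ) → ℕ} (hf : S n f)
    (h : ∀ v, R v ↔ f v = 0) : R ∈ Pd S n := by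
  refine ⟨fun v => 1 - (1 - f v), hS.subf (hS.constf 1) (hS.subf (hS.constf 1) hf),
    fun v => ⟨fun hR => ?_, fun hR => ?_⟩⟩
  · have := (h v).1 hR
    show 1 - (1 - f v) = 0
    omega
  · have : f v ≠ 0 := fun h' => hR ((h v).2 h')
    show 1 - (1 - f v) = 1
    omega

theorem Pd.zero {R : (Fin n → ℕ) → Prop} (h : R ∈ Pd S n) :
    ∃ f, S n f ∧ (∀ v, f v ≤ 1) ∧ ∀ v, R v ↔ f v = 0 := by
  classical
  obtain ⟨f, hf, h⟩ := h
  refine ⟨f, hf, fun v => ?_, fun v => ⟨(h v).1, fun h0 => ?_⟩⟩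
  · by_cases hR : R v
    · rw [(h v).1 hR]; omega
    · rw [(h v).2 hR]
  · by_contra hR
    have := (h v).2 hR
    omega

theorem Pd.bex (hS : FCl S) {P : (Fin (n + 1) → ℕ) → Prop} (hP : P ∈ Pd S (n + 1))
    {b : (Fin n → ℕ) → ℕ}
    (hb : S n b) : (fun v : Fin n → ℕ => ∃ x, x ≤ b v ∧ P (Matrix.vecCons x v)) ∈ Pd S n := by
  classical
  obtain ⟨f, hf, hf1, h⟩ := Pd.zero hP
  let F : (Fin (n + 1) → ℕ) → ℕ := fun w =>
    ch (∃ x, x ≤ w 0 ∧ P (Matrix.vecCons x (Fin.tail w)))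
  have hF : S (n + 1) F := by
    refine hS.lrec n (fun v => f (Matrix.vecCons 0 v))
      (fun u => u 0 * f (Matrix.vecCons (u 1 + 1) (Fin.tail (Fin.tail u))))
      (fun _ => 1) F ?_ ?_ (hS.constf 1) ?_ ?_ ?_
    · have := hS.cmp hf (n := n) (hs := Fin.cases (fun _ => 0) (fun i v => v i)) (by
        intro i
        refine Fin.cases ?_ (fun i => ?_) i
        · exact hS.zero n
        · exact hS.proj n i)
      refine hS.congr this fun v => ?_
      congr 1
      funext i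
      refine Fin.cases ?_ (fun i => ?_) i
      · rfl
      · rfl
    · refine hS.mulf (hS.proj (n + 2) 0) ?_
      have := hS.cmp hf (n := n + 2) (hs := Fin.cases (fun u => u 1 + 1) (fun i u => u i.succ.succ))
        (by
          intro i
          refine Fin.cases ?_ (fun i => ?_) i
          · exact hS.addf (hS.proj (n + 2) 1) (hS.constf 1)
          · exact hS.proj (n + 2) i.succ.succ)
      refine hS.congr this fun v => ?_
      congr 1
      funext i
      refine Fin.cases ?_ (fun i => ?_) i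
      · rfl
      · rfl
    · intro v
      exact ch_le _
    · intro v
      show ch (∃ x, x ≤ 0 ∧ P (Matrix.vecCons x v)) = f (Matrix.vecCons 0 v)
      by_cases h0 : P (Matrix.vecCons 0 v)
      · rw [ch_pos ⟨0, le_rfl, h0⟩, (h _).1 h0]
      · rw [ch_neg]
        · have h1 := hf1 (Matrix.vecCons 0 v)
          have h2 : f (Matrix.vecCons 0 v) ≠ 0 := fun h' => h0 ((h _).2 h')
          omega
        · rintro ⟨x, hx, hP⟩
          have : x = 0 := by omega
          subst this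
          exact h0 hP
    · intro v y
      show ch (∃ x, x ≤ y + 1 ∧ P (Matrix.vecCons x v)) =
        ch (∃ x, x ≤ y ∧ P (Matrix.vecCons x v)) * f (Matrix.vecCons (y + 1) v)
      by_cases h0 : ∃ x, x ≤ y ∧ P (Matrix.vecCons x v)
      · obtain ⟨x, hx, hP⟩ := h0
        rw [ch_pos ⟨x, by omega, hP⟩, ch_pos ⟨x, hx, hP⟩, Nat.zero_mul]
      · rw [ch_neg h0, Nat.one_mul]
        by_cases h1 : P (Matrix.vecCons (y + 1) v)
        · rw [ch_pos ⟨y + 1, le_rfl, h1⟩, (h _).1 h1]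
        · rw [ch_neg]
          · have h3 := hf1 (Matrix.vecCons (y + 1) v)
            have h2 : f (Matrix.vecCons (y + 1) v) ≠ 0 := fun h' => h1 ((h _).2 h')
            omega
          · rintro ⟨x, hx, hP⟩
            rcases Nat.lt_or_ge y x with h5 | h5
            · have : x = y + 1 := by omega
              subst this
              exact h1 hP
            · exact h0 ⟨x, h5, hP⟩
  have h4 := hS.cmp hF (n := n) (hs := Fin.cases b (fun i v => v i)) (by
    intro i
    refine Fin.cases ?_ (fun i => ?_) i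
    · exact hb
    · exact hS.proj n i)
  refine Pd.of_zero hS h4 fun v => ?_
  show _ ↔ ch (∃ x, x ≤ b v ∧ P (Matrix.vecCons x v)) = 0
  by_cases h0 : ∃ x, x ≤ b v ∧ P (Matrix.vecCons x v)
  · exact ⟨fun _ => ch_pos h0, fun _ => h0⟩
  · exact ⟨fun h' => absurd h' h0, fun h' => by rw [ch_neg h0] at h'; omega⟩

theorem clo_Pd (hS : FCl S) : Clo (Pd S) where
  eq n p q := Pd.of_zero hS
    (hS.addf (hS.subf (hS.polyf p) (hS.polyf q)) (hS.subf (hS.polyf q) (hS.polyf p))) fun v => by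
      omega
  le n p q := Pd.of_zero hS (hS.subf (hS.polyf p) (hS.polyf q)) fun v => by omega
  not n P hP := by
    obtain ⟨f, hf, hf1, h⟩ := Pd.zero hP
    refine Pd.of_zero hS (hS.subf (hS.constf 1) hf) fun v => ?_
    have := hf1 v
    rw [h v]
    omega
  and n P Q hP hQ := by
    obtain ⟨f, hf, hf1, h⟩ := Pd.zero hP
    obtain ⟨f', hf', hf1', h'⟩ := Pd.zero hQ
    refine Pd.of_zero hS (hS.addf hf hf') fun v => ?_
    rw [h v, h' v]
    omega
  ex n P p hP := Pd.bex hS hP (hS.polyf p)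
  ren n m ρ P hP := by
    obtain ⟨f, hf, h⟩ := hP
    exact ⟨_, hS.cmp hf fun i => hS.proj m (ρ i), fun v => h _⟩

/-- The graph of a function of the class. -/
theorem fn_of_S (hS : FCl S) {f : (Fin n → ℕ) → ℕ} (hf : S n f) {b : MvPolynomial (Fin n) ℕ}
    (hb : ∀ v, f v ≤ eval v b) : Fn (Pd S) f := by
  refine ⟨⟨fun w => w 0 = f (Fin.tail w), ?_, fun p => Iff.rfl⟩, b, hb⟩
  have h1 : S (n + 1) (fun w : Fin (n + 1) → ℕ => f (Fin.tail w)) :=
    hS.cmp hf fun i => hS.proj (n + 1) i.succ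
  have h2 := hS.proj (n + 1) 0
  refine Pd.of_zero hS (hS.addf (hS.subf h2 h1) (hS.subf h1 h2)) fun w => ?_
  omega

/-- Definable functions bounded by a constant are in the class. -/
theorem S_of_fn (hS : FCl S) {f : (Fin n → ℕ) → ℕ} (hf : Fn (Pd S) f) {k : ℕ}
    (hk : ∀ v, f v ≤ k) : S n f := by
  classical
  have hC := clo_Pd hS
  have key : ∀ k : ℕ, S n (fun v => min (f v) k) := by
    intro k
    induction k with
    | zero => exact hS.congr (hS.zero n) fun v => by simp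
    | succ k ih =>
      obtain ⟨R, hR, h⟩ := Df.lef hC (Fn.nat hC (k + 1)) hf
      obtain ⟨g, hg, h'⟩ := hR
      refine hS.congr (hS.addf ih (hS.subf (hS.constf 1) hg)) fun v => ?_
      have h1 := h v
      have h2 := h' v
      by_cases h3 : k + 1 ≤ f v
      · have h4 := h2.1 (h1.1 h3)
        omega
      · have h4 := h2.2 (fun h5 => h3 (h1.2 h5))
        omega
  refine hS.congr (key k) fun v => ?_
  have := hk v
  omega

end Pool.Agent.TH762.E2
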