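import Pool.Agent.TH762.E2.Nsp

set_option autoImplicit false

/-!
The law for nondeterministic linear space.
-/

namespace Pool.Agent.TH762.E2

open MvPolynomial Relation
open Pool.Agent.TH762.MC (Tn ExL Few world)

variable {C D : (n : ℕ) → Set ((Fin n → ℕ) → Prop)} {Γ Δ : Type} [Cx Γ] [Cx Δ] {k n : ℕ}

/-- Predicates on numbers that say that there is a path from `0` to `1` in a graph on the numbers up
to a polynomial, whose edges are given by a predicate in `E^2`. -/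
def NLin (n : ℕ) : Set ((Fin n → ℕ) → Prop) :=
  {R | ∃ Q ∈ E2s (n + 2), ∃ p : MvPolynomial (Fin n) ℕ, ∀ v : Fin n → ℕ, R v ↔
    Relation.ReflTransGen (fun a a' : ℕ => a ≤ MvPolynomial.eval v p ∧
      a' ≤ MvPolynomial.eval v p ∧ Q (Matrix.vecCons a' (Matrix.vecCons a v))) 0 1}

theorem np_of_nlin {R : (Fin n → ℕ) → Prop} (h : R ∈ NLin n) : Np E2s R := by
  have hC := clo_E2s
  obtain ⟨Q, hQ, p, h⟩ := h
  have hx : Fn E2s (fun q : ((Fin n → ℕ) × ℕ) × ℕ => q.1.2) := (Vr.snd.ren Rn.fst).fn hC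
  have hp : Fn E2s (fun v : Fin n → ℕ => eval v p) := Fn.poly (Γ := Fin n → ℕ) hC p
  have hp' := hp.ren hC (φ := fun q : ((Fin n → ℕ) × ℕ) × ℕ => q.1.1) (Rn.fst.comp Rn.fst)
  refine ⟨fun q => q.1.2 ≤ eval q.1.1 p ∧ q.2 ≤ eval q.1.1 p ∧
    Q (Matrix.vecCons q.2 (Matrix.vecCons q.1.2 q.1.1)), fun v => eval v p, fun _ => 0,
    fun _ => 1, ?_, hp, Fn.nat hC 0, Fn.nat hC 1, fun γ a a' h => ⟨h.1, h.2.1⟩, h⟩
  exact (Df.lef hC hx hp').and hC ((Df.lef hC (Vr.snd.fn hC) hp').and hC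
    ⟨Q, hQ, fun _ => Iff.rfl⟩)

theorem nlin_of_np {R : (Fin n → ℕ) → Prop} (h : Np E2s R) : R ∈ NLin n := by
  have hC := clo_E2s
  obtain ⟨E, b, s, e, hE, hb, hs, he, h1, h2⟩ := h
  have hx : Fn E2s (fun q : ((Fin n → ℕ) × ℕ) × ℕ => q.1.2) := (Vr.snd.ren Rn.fst).fn hC
  have hy : Fn E2s (fun q : ((Fin n → ℕ) × ℕ) × ℕ => q.2) := Vr.snd.fn hC
  have h11 : Rn (fun q : ((Fin n → ℕ) × ℕ) × ℕ => q.1.1) := Rn.fst.comp Rn.fst
  let G : (Fin n → ℕ) → ℕ → ℕ → Prop := fun v x x' =>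
    (x = 0 ∧ x' = s v + 2) ∨ (x = e v + 2 ∧ x' = 1) ∨
      (2 ≤ x ∧ 2 ≤ x' ∧ E ((v, x - 2), x' - 2))
  have hG : Df E2s (fun q : ((Fin n → ℕ) × ℕ) × ℕ => G q.1.1 q.1.2 q.2) := by
    refine Df.or hC ((Df.eqf hC hx (Fn.nat hC 0)).and hC
      (Df.eqf hC hy ((hs.ren hC h11).add hC (Fn.nat hC 2)))) (Df.or hC ((Df.eqf hC hx
        ((he.ren hC h11).add hC (Fn.nat hC 2))).and hC (Df.eqf hC hy (Fn.nat hC 1)))
        (Df.and hC (Df.lef hC (Fn.nat hC 2) hx) (Df.and hC (Df.lef hC (Fn.nat hC 2) hy) ?_)))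
    exact hE.map hC (φ := fun q : ((Fin n → ℕ) × ℕ) × ℕ => ((q.1.1, q.1.2 - 2), q.2 - 2))
      (((h11.mp hC).pair (hx.tsub hC (Fn.nat hC 2))).pair (hy.tsub hC (Fn.nat hC 2)))
  obtain ⟨Q, hQ, hQG⟩ := hG
  obtain ⟨p, hp⟩ := (((hb.add hC hs).add hC he).add hC (Fn.nat hC 2)).2
  have hGb : ∀ v x x', G v x x' → x ≤ eval v p ∧ x' ≤ eval v p := by
    intro v x x' h
    have h3 : b v + s v + e v + 2 ≤ eval v p := hp v
    rcases h with ⟨g1, g2⟩ | ⟨g1, g2⟩ | ⟨g1, g2, g3⟩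
    · omega
    · omega
    · have := h1 v _ _ g3
      omega
  refine ⟨Q, hQ, p, fun v => ?_⟩
  have hrel : (fun a a' : ℕ => a ≤ eval v p ∧ a' ≤ eval v p ∧
      Q (Matrix.vecCons a' (Matrix.vecCons a v))) = G v := by
    funext a a'
    refine propext ⟨fun h => (hQG ((v, a), a')).2 h.2.2, fun h => ?_⟩
    exact ⟨(hGb v a a' h).1, (hGb v a a' h).2, (hQG ((v, a), a')).1 h⟩
  rw [hrel, h2]
  constructor
  · intro hr
    have q1 : ReflTransGen (G v) (s v + 2) (e v + 2) :=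
      rtg_lift (p := G v) (fun a => a + 2) (fun a a' h => Or.inr (Or.inr ⟨by omega, by omega, by
        simpa using h⟩)) hr
    have g1 : G v 0 (s v + 2) := Or.inl ⟨rfl, rfl⟩
    have g2 : G v (e v + 2) 1 := Or.inr (Or.inl ⟨rfl, rfl⟩)
    exact (ReflTransGen.head g1 q1).tail g2
  · intro hr
    have inv : ∀ x, ReflTransGen (G v) 0 x → x = 0 ∨
        (2 ≤ x ∧ ReflTransGen (fun a a' => E ((v, a), a')) (s v) (x - 2)) ∨
        (x = 1 ∧ ReflTransGen (fun a a' => E ((v, a), a')) (s v) (e v)) := by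
      intro x hx
      induction hx with
      | refl => exact Or.inl rfl
      | tail _ hstep ih =>
        rcases hstep with ⟨g1, g2⟩ | ⟨g1, g2⟩ | ⟨g1, g2, g3⟩
        · refine Or.inr (Or.inl ⟨by omega, ?_⟩)
          rw [g2]
          exact ReflTransGen.refl
        · rcases ih with h0 | ⟨h0, hr⟩ | ⟨h0, _⟩
          · omega
          · rw [g1] at hr
            exact Or.inr (Or.inr ⟨g2, hr⟩)
          · omega
        · rcases ih with h0 | ⟨h0, hr⟩ | ⟨h0, _⟩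
          · omega
          · exact Or.inr (Or.inl ⟨g2, hr.tail g3⟩)
          · omega
    rcases inv 1 hr with h0 | ⟨h0, _⟩ | ⟨_, h0⟩
    · omega
    · omega
    · exact h0

theorem Fn.div (hD : Clo D) {f g : Γ → ℕ} (hf : Fn D f) (hg : Fn D g) :
    Fn D (fun γ => f γ / (g γ + 1)) := by
  refine Fn.of_le (g := f) ?_ hf (fun γ => Nat.div_le_self _ _)
  have hq : Fn D (fun p : Γ × ℕ => p.2) := Vr.snd.fn hD
  have hg' : Fn D (fun p : Γ × ℕ => g p.1 + 1) := (hg.fst hD).add hD (Fn.nat hD 1)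
  refine ((Df.lef hD (hq.mul hD hg') (hf.fst hD)).and hD (Df.ltf hD (hf.fst hD)
    ((hq.add hD (Fn.nat hD 1)).mul hD hg'))).congr fun p => ?_
  show p.2 = f p.1 / (g p.1 + 1) ↔ _
  rw [eq_comm, Nat.div_eq_iff (by omega)]
  constructor
  · rintro ⟨h1, h2⟩
    refine ⟨h1, ?_⟩
    rw [Nat.add_mul]
    omega
  · rintro ⟨h1, h2⟩
    rw [Nat.add_mul] at h2
    exact ⟨h1, by omega⟩

theorem Fn.mod (hD : Clo D) {f g : Γ → ℕ} (hf : Fn D f) (hg : Fn D g) :
    Fn D (fun γ => f γ % (g γ + 1)) := by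
  refine (hf.tsub hD ((hg.add hD (Fn.nat hD 1)).mul hD (hf.div hD hg))).congr fun γ => ?_
  have := Nat.div_add_mod (f γ) (g γ + 1)
  omega

theorem Df.of_sub (hs : ∀ n (R : (Fin n → ℕ) → Prop), R ∈ C n → R ∈ D n) {P : Γ → Prop}
    (h : Df C P) : Df D P := by
  obtain ⟨R, hR, h⟩ := h
  exact ⟨R, hs _ R hR, h⟩

theorem Fn.of_sub (hs : ∀ n (R : (Fin n → ℕ) → Prop), R ∈ C n → R ∈ D n) {f : Γ → ℕ}
    (h : Fn C f) : Fn D f := ⟨h.1.of_sub hs, h.2⟩

theorem mem_of_df {R : (Fin n → ℕ) → Prop} (h : Df D R) : R ∈ D n := by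
  obtain ⟨R', hR', h⟩ := h
  have : R = R' := funext fun v => propext (h v)
  rw [this]
  exact hR'

theorem df_of_mem {R : (Fin n → ℕ) → Prop} (h : R ∈ D n) : Df D R := ⟨R, h, fun _ => Iff.rfl⟩

theorem ofDigits_mono {b : ℕ} : ∀ {m : ℕ} (f g : Fin m → ℕ), (∀ i, f i ≤ g i) →
    Nat.ofDigits b (List.ofFn f) ≤ Nat.ofDigits b (List.ofFn g) := by
  intro m
  induction m with
  | zero => intro f g _; simp
  | succ m ih =>
    intro f g h
    rw [List.ofFn_succ, List.ofFn_succ, Nat.ofDigits_cons, Nat.ofDigits_cons]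
    exact Nat.add_le_add (h 0) (Nat.mul_le_mul_left _ (ih _ _ fun i => h i.succ))

open Classical in
/-- For any chain of `k` sets in nondeterministic linear space there is a function `g` with level
sets in `D` which names a wrong count: `g x ≤ k` is not the number of sets that contain `x`. -/
def Wrong (D : (n : ℕ) → Set ((Fin n → ℕ) → Prop)) (k : ℕ) : Prop :=
  ∀ R : Fin k → (Fin 1 → ℕ) → Prop, (∀ s, R s ∈ NLin 1) →
    (∀ s s', s ≤ s' → ∀ v, R s' v → R s v) →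
    ∃ g : (Fin 1 → ℕ) → ℕ,
      (∀ v, g v ≤ k ∧ g v ≠ (Finset.univ.filter (fun s => R s v)).card) ∧
      ∀ c : ℕ, (fun v : Fin 1 → ℕ => g v = c) ∈ D 1

/-- The check. -/
def CkR (E : (Γ × ℕ) × ℕ → Prop) (b s N : Γ → ℕ) (γ : Γ) (Q : ℕ → ℕ → Prop) : Prop :=
  (∀ g ≤ N γ, ∀ w ≤ N γ, Q g w → w ≤ 1) ∧ (∀ g ≤ N γ, (Q g 0 ↔ ¬ Q g 1)) ∧
  (∀ c ≤ b γ, (Q c 1 ↔ c = s γ)) ∧
  ∀ t ≤ b γ + 1, ∀ c ≤ b γ, (Q (c + (b γ + 1) * (t + 1)) 1 ↔ (Q (c + (b γ + 1) * t) 1 ∨
    ∃ a ≤ b γ, Q (a + (b γ + 1) * t) 1 ∧ E ((γ, a), c)))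

theorem ckR_df (hD : Clo D) {E : (Γ × ℕ) × ℕ → Prop} (hE : Df D E) {b s N : Γ → ℕ}
    (hb : Fn D b) (hs : Fn D s) (hN : Fn D N) (φ : Δ → Γ) (hφ : Rn φ) (Q : (Δ × ℕ) × ℕ → Prop)
    (hQ : Df D Q) : Df D (fun δ => CkR E b s N (φ δ) (fun g w => Q ((δ, g), w))) := by
  have hb' : Fn D (fun δ => b (φ δ)) := hb.ren hD hφ
  have hs' : Fn D (fun δ => s (φ δ)) := hs.ren hD hφ
  have hN' : Fn D (fun δ => N (φ δ)) := hN.ren hD hφ
  refine Df.and hD ?_ (Df.and hD ?_ (Df.and hD ?_ ?_))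
  · refine Df.all hD (P := fun p : Δ × ℕ => ∀ w ≤ N (φ p.1), Q ((p.1, p.2), w) → w ≤ 1) ?_ hN'
    refine Df.all hD (P := fun q : (Δ × ℕ) × ℕ => Q ((q.1.1, q.1.2), q.2) → q.2 ≤ 1) ?_
      (hN'.fst hD)
    exact Df.imp hD hQ (Df.lef hD (Vr.snd.fn hD) (Fn.nat hD 1))
  · refine Df.all hD (P := fun p : Δ × ℕ => (Q ((p.1, p.2), 0) ↔ ¬ Q ((p.1, p.2), 1))) ?_ hN'
    exact Df.iff hD (hQ.sub hD (Fn.nat hD 0)) ((hQ.sub hD (Fn.nat hD 1)).not hD)
  · refine Df.all hD (P := fun p : Δ × ℕ => (Q ((p.1, p.2), 1) ↔ p.2 = s (φ p.1))) ?_ hb'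
    exact Df.iff hD (hQ.sub hD (Fn.nat hD 1)) (Df.eqf hD (Vr.snd.fn hD) (hs'.fst hD))
  · refine Df.all hD (P := fun p : Δ × ℕ => ∀ c ≤ b (φ p.1),
      (Q ((p.1, c + (b (φ p.1) + 1) * (p.2 + 1)), 1) ↔
        (Q ((p.1, c + (b (φ p.1) + 1) * p.2), 1) ∨
      ∃ a ≤ b (φ p.1), Q ((p.1, a + (b (φ p.1) + 1) * p.2), 1) ∧ E ((φ p.1, a), c)))) ?_
      (hb'.add hD (Fn.nat hD 1))
    refine Df.all hD (P := fun q : (Δ × ℕ) × ℕ =>
      (Q ((q.1.1, q.2 + (b (φ q.1.1) + 1) * (q.1.2 + 1)), 1) ↔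
        (Q ((q.1.1, q.2 + (b (φ q.1.1) + 1) * q.1.2), 1) ∨
      ∃ a ≤ b (φ q.1.1), Q ((q.1.1, a + (b (φ q.1.1) + 1) * q.1.2), 1) ∧
        E ((φ q.1.1, a), q.2)))) ?_ (hb'.fst hD)
    have h11 : Rn (fun q : (Δ × ℕ) × ℕ => q.1.1) := Rn.fst.comp Rn.fst
    have ht : Fn D (fun q : (Δ × ℕ) × ℕ => q.1.2) := (Vr.snd.ren Rn.fst).fn hD
    have hc : Fn D (fun q : (Δ × ℕ) × ℕ => q.2) := Vr.snd.fn hD
    have hb1 : Fn D (fun q : (Δ × ℕ) × ℕ => b (φ q.1.1) + 1) :=
      (hb'.ren hD h11).add hD (Fn.nat hD 1)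
    have hQ1 : ∀ f : (Δ × ℕ) × ℕ → ℕ, Fn D f →
        Df D (fun q : (Δ × ℕ) × ℕ => Q ((q.1.1, f q), 1)) := fun f hf =>
      hQ.map hD (φ := fun q : (Δ × ℕ) × ℕ => ((q.1.1, f q), 1))
        (((h11.mp hD).pair hf).pair (Fn.nat hD 1))
    refine Df.iff hD (hQ1 _ (hc.add hD (hb1.mul hD (ht.add hD (Fn.nat hD 1)))))
      (Df.or hD (hQ1 _ (hc.add hD (hb1.mul hD ht))) ?_)
    refine Df.ex hD (P := fun r : ((Δ × ℕ) × ℕ) × ℕ =>
      Q ((r.1.1.1, r.2 + (b (φ r.1.1.1) + 1) * r.1.1.2), 1) ∧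
        E ((φ r.1.1.1, r.2), r.1.2)) ?_ (hb'.ren hD h11)
    have h111 : Rn (fun r : ((Δ × ℕ) × ℕ) × ℕ => r.1.1.1) := Rn.fst.comp h11
    refine Df.and hD ?_ ?_
    · exact hQ.map hD (φ := fun r : ((Δ × ℕ) × ℕ) × ℕ =>
        ((r.1.1.1, r.2 + (b (φ r.1.1.1) + 1) * r.1.1.2), 1))
        (((h111.mp hD).pair ((Vr.snd.fn hD).add hD ((hb1.fst hD).mul hD (ht.fst hD)))).pair
          (Fn.nat hD 1))
    · exact hE.ren hD (φ := fun r : ((Δ × ℕ) × ℕ) × ℕ => ((φ r.1.1.1, r.2), r.1.2))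
        (((h111.comp hφ).pair Vr.snd).pair (Vr.snd.ren Rn.fst))

theorem nlin_sub (hD : Clo D) (hsub : ∀ n (R : (Fin n → ℕ) → Prop), R ∈ E2s n → R ∈ D n)
    (h : Wrong D k) {R : (Fin n → ℕ) → Prop} (hR : R ∈ NLin n) : R ∈ D n := by
  classical
  have hC := clo_E2s
  obtain ⟨E, b, s, e, hE, hb, hs, he, h1, h2⟩ := np_of_nlin hR
  let N : (Fin n → ℕ) → ℕ := fun γ => b γ + (b γ + 1) * (b γ + 2)
  have hN : Fn E2s N := hb.add hC ((hb.add hC (Fn.nat hC 1)).mul hC (hb.add hC (Fn.nat hC 2)))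
  let Rr : (Fin n → ℕ) → ℕ → Prop := fun γ g =>
    Rch (fun a a' => E ((γ, a), a')) (s γ) (g / (b γ + 1)) (g % (b γ + 1))
  let τ : (Fin n → ℕ) → ℕ → ℕ := fun γ g => if Rr γ g then 1 else 0
  have hN1 : ∀ γ, 1 ≤ N γ := fun γ => by
    show 1 ≤ b γ + (b γ + 1) * (b γ + 2)
    nlinarith
  have hle : ∀ γ, ∀ g ≤ N γ, τ γ g ≤ N γ := by
    intro γ g _
    have : τ γ g ≤ 1 := by
      show (if Rr γ g then 1 else 0) ≤ 1
      split_ifs <;> omega
    exact this.trans (hN1 γ)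
  -- the chain
  let A : Fin k → ((Fin n → ℕ) × (Fin k → ℕ)) × (Fin (k + 1) → ℕ) → Prop := fun j q =>
    ∃ bb : Fin k → Bool, (∀ j' : Fin k, j' ≤ j → q.2 j'.succ ≤
      Nat.ofDigits (N q.1.1 + 1) (List.ofFn fun i => if bb i then 1 else 0)) ∧
      ∀ i : Fin k, bb i = true → Rr q.1.1 (q.1.2 i)
  have hAnp : ∀ j, Np E2s (A j) := by
    intro j
    refine Np.exF hC fun bb => Np.and hC (Np.of_df hC (Df.fin hC fun j' =>
      Df.imp hC (Df.const hC _) (Df.lef hC ((Vr.sndV _).fn hC) ?_))) (Np.allfin hC fun i => ?_)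
    · have h3 := ((hN.ren hC (Rn.fstV.comp Rn.fstV)).add hC (Fn.nat hC 1)).ofDigits hC
        (List.ofFn fun (i : Fin k) (_ : ((Fin n → ℕ) × (Fin k → ℕ)) × (Fin (k + 1) → ℕ)) =>
          if bb i then 1 else 0) (by
          intro g hg
          rw [List.mem_ofFn] at hg
          obtain ⟨i, rfl⟩ := hg
          exact Fn.nat hC _)
      refine h3.congr fun q => ?_
      rw [List.map_ofFn]
      rfl
    · by_cases hbb : bb i = true
      · have h3 := np_rch hC hE hb hs h1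
        have hJ : Fn E2s (fun q : ((Fin n → ℕ) × (Fin k → ℕ)) × (Fin (k + 1) → ℕ) => q.1.2 i) :=
          ((Vr.sndV i).ren Rn.fstV).fn hC
        have hbq := hb.ren hC (φ := fun q : ((Fin n → ℕ) × (Fin k → ℕ)) × (Fin (k + 1) → ℕ) =>
          q.1.1) (Rn.fstV.comp Rn.fstV)
        have h4 := h3.map hC (φ := fun q : ((Fin n → ℕ) × (Fin k → ℕ)) × (Fin (k + 1) → ℕ) =>
          ((q.1.1, q.1.2 i / (b q.1.1 + 1)), q.1.2 i % (b q.1.1 + 1)))
          ((((Rn.fstV.comp Rn.fstV).mp hC).pair (hJ.div hC hbq)).pair (hJ.mod hC hbq))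
        exact h4.congr fun q => ⟨fun h => h hbb, fun h _ => h⟩
      · exact (Np.of_df hC (Df.true hC)).congr fun q => ⟨fun _ => trivial,
          fun _ h => absurd h hbb⟩
  have hAiff : ∀ j q, A j q ↔ ∀ j' : Fin k, j' ≤ j → q.2 j'.succ ≤
      Nat.ofDigits (N q.1.1 + 1) (List.ofFn fun i => τ q.1.1 (q.1.2 i)) := by
    intro j q
    constructor
    · rintro ⟨bb, g1, g2⟩ j' hj'
      refine (g1 j' hj').trans (ofDigits_mono _ _ fun i => ?_)
      by_cases hbb : bb i = true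
      · show _ ≤ (if Rr q.1.1 (q.1.2 i) then 1 else 0)
        rw [if_pos (g2 i hbb)]
        split_ifs <;> omega
      · rw [if_neg hbb]
        exact Nat.zero_le _
    · intro g
      refine ⟨fun i => decide (Rr q.1.1 (q.1.2 i)), fun j' hj' => (g j' hj').trans
        (ofDigits_mono _ _ fun i => ?_), fun i hi => by simpa using hi⟩
      show (if Rr q.1.1 (q.1.2 i) then 1 else 0) ≤ _
      by_cases hr : Rr q.1.1 (q.1.2 i)
      · simp [hr]
      · simp [hr]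
  have hcd : Cd E2s D (((Fin n → ℕ) × (Fin k → ℕ)) × (Fin (k + 1) → ℕ)) :=
    ((Cd.fin hC hD n).vec hC hD k).vec hC hD (k + 1)
  obtain ⟨δ, κ, hδ, hκ, hδκ⟩ := hcd
  obtain ⟨g, hg, hg2⟩ := h (fun j v => A j (δ v)) (fun j => nlin_of_np ((hAnp j).map hC hδ))
    (fun j j' hj v => by
      rintro ⟨bb, g1, g2⟩
      exact ⟨bb, fun i hi => g1 i (hi.trans hj), g2⟩)
  obtain ⟨L, hL, hL2⟩ := lists_of_ex (k := k) hD (hN.of_sub hsub) (τ := τ)
    (Ex := fun c q => g (κ q) = c)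
    (fun c => (df_of_mem (hg2 c)).map hD hκ) (by
      intro q
      refine ⟨⟨g (κ q), (hg _).1, rfl⟩, fun hq c hc hE' => ?_⟩
      have h3 := (hg (κ q)).2
      apply h3
      have h4 : g (κ q) = c.val := hE'
      rw [h4]
      have hsm : StrictMono q.2 := Fin.strictMono_iff_lt_succ.2 hq
      have h5 := count_mono hsm hc
      rw [← h5]
      refine congrArg Finset.card (Finset.ext fun i => ?_)
      simp only [Finset.mem_filter, Finset.mem_univ, true_and]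
      rw [hδκ, hAiff]
      constructor
      · intro h6 j' hj'
        refine le_trans (hsm.monotone ?_) h6
        exact Fin.succ_le_succ_iff.2 hj'
      · intro h6
        exact h6 i le_rfl)
  have hEb : ∀ γ a a', E ((γ, a), a') → a ≤ b γ ∧ a' ≤ b γ := h1
  have eng := engine (k := k) hD (hN.of_sub hsub) (τ := τ) hle hL hL2 (CkR E b s N)
    (by
      intro γ Q hQ x hx w hw
      obtain ⟨q1, q2, q3, q4⟩ := hQ
      have hNe : N γ = b γ + (b γ + 1) * (b γ + 2) := rfl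
      have key : ∀ t, t ≤ b γ + 2 → ∀ c ≤ b γ, (Q (c + (b γ + 1) * t) 1 ↔
          Rch (fun a a' => E ((γ, a), a')) (s γ) t c) := by
        intro t
        induction t with
        | zero =>
          intro _ c hc
          rw [Nat.mul_zero, Nat.add_zero]
          exact q3 c hc
        | succ t ih =>
          intro ht c hc
          rw [q4 t (by omega) c hc, ih (by omega) c hc]
          refine or_congr Iff.rfl ?_
          constructor
          · rintro ⟨a, ha, g1, g2⟩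
            exact ⟨a, (ih (by omega) a ha).1 g1, g2⟩
          · rintro ⟨a, g1, g2⟩
            have ha := (hEb _ _ _ g2).1
            exact ⟨a, ha, (ih (by omega) a ha).2 g1, g2⟩
      have hlt : x < (b γ + 1) * (b γ + 3) := by nlinarith
      have ht : x / (b γ + 1) ≤ b γ + 2 := by
        have := Nat.div_lt_of_lt_mul hlt
        omega
      have hc : x % (b γ + 1) ≤ b γ := by
        have := Nat.mod_lt x (show 0 < b γ + 1 by omega)
        omega
      have hx2 : x % (b γ + 1) + (b γ + 1) * (x / (b γ + 1)) = x := Nat.mod_add_div _ _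
      have h3 := key _ ht _ hc
      rw [hx2] at h3
      have h4 : Q x 1 ↔ Rr γ x := h3
      show Q x w ↔ w = if Rr γ x then 1 else 0
      by_cases hr : Rr γ x
      · rw [if_pos hr]
        constructor
        · intro hQ
          have h5 := q1 x hx w hw hQ
          rcases Nat.lt_or_ge w 1 with h6 | h6
          · have h7 : w = 0 := by omega
            rw [h7] at hQ
            exact absurd (h4.2 hr) ((q2 x hx).1 hQ)
          · omega
        · intro h5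
          rw [h5]
          exact h4.2 hr
      · rw [if_neg hr]
        constructor
        · intro hQ
          have h5 := q1 x hx w hw hQ
          rcases Nat.lt_or_ge w 1 with h6 | h6
          · omega
          · have h7 : w = 1 := by omega
            rw [h7] at hQ
            exact absurd (h4.1 hQ) hr
        · intro h5
          rw [h5]
          exact (q2 x hx).2 fun h6 => hr (h4.1 h6))
    (by
      intro γ Q hQ
      have hNe : N γ = b γ + (b γ + 1) * (b γ + 2) := rfl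
      have hN1' := hN1 γ
      have hpos : ∀ t ≤ b γ + 2, ∀ c ≤ b γ, c + (b γ + 1) * t ≤ N γ := by
        intro t ht c hc
        rw [hNe]
        exact Nat.add_le_add hc (Nat.mul_le_mul_left _ ht)
      have hval : ∀ t ≤ b γ + 2, ∀ c ≤ b γ, (Q (c + (b γ + 1) * t) 1 ↔
          Rch (fun a a' => E ((γ, a), a')) (s γ) t c) := by
        intro t ht c hc
        rw [hQ _ (hpos t ht c hc) 1 hN1']
        show 1 = (if Rch _ _ _ _ then 1 else 0) ↔ _
        rw [Nat.add_mul_div_left _ _ (by omega), Nat.div_eq_of_lt (by omega),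
          Nat.add_mul_mod_self_left, Nat.mod_eq_of_lt (by omega), Nat.zero_add]
        by_cases hr : Rch (fun a a' => E ((γ, a), a')) (s γ) t c
        · simp [hr]
        · simp [hr]
      refine ⟨?_, ?_, ?_, ?_⟩
      · intro x hx w hw hQ'
        have h3 : w = if Rr γ x then 1 else 0 := (hQ x hx w hw).1 hQ'
        rw [h3]
        split_ifs <;> omega
      · intro x hx
        rw [hQ x hx 0 (Nat.zero_le _), hQ x hx 1 hN1']
        show 0 = (if Rr γ x then 1 else 0) ↔ ¬ 1 = (if Rr γ x then 1 else 0)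
        by_cases hr : Rr γ x
        · simp [hr]
        · simp [hr]
      · intro c hc
        have h3 := hval 0 (Nat.zero_le _) c hc
        rw [Nat.mul_zero, Nat.add_zero] at h3
        exact h3
      · intro t ht c hc
        rw [hval (t + 1) (by omega) c hc, hval t (by omega) c hc]
        refine or_congr Iff.rfl ?_
        constructor
        · rintro ⟨a, g1, g2⟩
          have ha := (hEb _ _ _ g2).1
          exact ⟨a, ha, (hval t (by omega) a ha).2 g1, g2⟩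
        · rintro ⟨a, ha, g1, g2⟩
          exact ⟨a, (hval t (by omega) a ha).1 g1, g2⟩)
    (fun φ hφ Q hQ => ckR_df hD (hE.of_sub hsub) (hb.of_sub hsub) (hs.of_sub hsub)
      (hN.of_sub hsub) φ hφ Q hQ)
  -- the end
  have hb' := hb.of_sub hsub
  have he' := he.of_sub hsub
  have hs' := hs.of_sub hsub
  have fin : Df D (fun γ : Fin n → ℕ => (b γ < e γ ∧ e γ = s γ) ∨ (e γ ≤ b γ ∧
      ((e γ + (b γ + 1) * (b γ + 2) ≤ N γ ∧ 1 ≤ N γ) ∧
        1 = τ γ (e γ + (b γ + 1) * (b γ + 2))))) := by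
    refine Df.or hD ((Df.ltf hD hb' he').and hD (Df.eqf hD he' hs'))
      (Df.and hD (Df.lef hD he' hb') ?_)
    exact eng.map hD (φ := fun γ : Fin n → ℕ => ((γ, e γ + (b γ + 1) * (b γ + 2)), 1))
      (((Mp.id hD).pair (he'.add hD ((hb'.add hD (Fn.nat hD 1)).mul hD
        (hb'.add hD (Fn.nat hD 2))))).pair (Fn.nat hD 1))
  refine mem_of_df (fin.congr fun γ => ?_)
  rw [h2]
  have hEγ : ∀ a a', E ((γ, a), a') → a ≤ b γ ∧ a' ≤ b γ := h1 γ
  constructor
  · intro hr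
    rcases Nat.lt_or_ge (b γ) (e γ) with h3 | h3
    · left
      refine ⟨h3, ?_⟩
      have h4 := (rch_sat hEγ (e γ)).1 hr
      rcases rch_le hEγ _ _ h4 with h5 | h5
      · exact h5
      · omega
    · right
      refine ⟨h3, ⟨Nat.add_le_add_right h3 _, hN1 γ⟩, ?_⟩
      have h4 := (rch_sat hEγ (e γ)).1 hr
      show 1 = (if Rch _ _ _ _ then 1 else 0)
      rw [Nat.add_mul_div_left _ _ (by omega), Nat.div_eq_of_lt (by omega),
        Nat.add_mul_mod_self_left, Nat.mod_eq_of_lt (by omega), Nat.zero_add, if_pos h4]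
  · rintro (⟨h3, h4⟩ | ⟨h3, _, h4⟩)
    · rw [h4]
    · have h5 : 1 = (if Rch (fun a a' => E ((γ, a), a')) (s γ)
        ((e γ + (b γ + 1) * (b γ + 2)) / (b γ + 1))
        ((e γ + (b γ + 1) * (b γ + 2)) % (b γ + 1)) then 1 else 0) := h4
      rw [Nat.add_mul_div_left _ _ (by omega), Nat.div_eq_of_lt (by omega),
        Nat.add_mul_mod_self_left, Nat.mod_eq_of_lt (by omega), Nat.zero_add] at h5
      refine (rch_sat hEγ (e γ)).2 ?_
      by_contra hr
      rw [if_neg hr] at h5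
      omega

theorem law_nlin (hD : Clo D) (hsub : ∀ n (R : (Fin n → ℕ) → Prop), R ∈ E2s n → R ∈ D n) :
    (∀ (n : ℕ) (R : (Fin n → ℕ) → Prop), R ∈ NLin n → R ∈ D n) ↔ ∃ k, Wrong D k := by
  classical
  constructor
  · intro h
    refine ⟨1, fun R hR _ => ⟨fun v => if R 0 v then 0 else 1, fun v => ?_, fun c => ?_⟩⟩
    · have hcard : (Finset.univ.filter (fun s : Fin 1 => R s v)).card = if R 0 v then 1 else 0 := by
        by_cases h0 : R 0 v
        · rw [if_pos h0]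
          have : Finset.univ.filter (fun s : Fin 1 => R s v) = Finset.univ :=
            Finset.filter_true_of_mem fun s _ => by rw [Subsingleton.elim s 0]; exact h0
          rw [this]; rfl
        · rw [if_neg h0]
          have : Finset.univ.filter (fun s : Fin 1 => R s v) = ∅ :=
            Finset.filter_false_of_mem fun s _ => by rw [Subsingleton.elim s 0]; exact h0
          rw [this]; rfl
      rw [hcard]
      by_cases h0 : R 0 v
      · simp [h0]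
      · simp [h0]
    · have h0 := df_of_mem (h 1 (R 0) (hR 0))
      refine mem_of_df ((Df.or hD ((h0).and hD (Df.const hD (c = 0)))
        ((h0.not hD).and hD (Df.const hD (c = 1)))).congr fun v => ?_)
      show (if R 0 v then 0 else 1) = c ↔ _
      by_cases h0 : R 0 v
      · simp [h0, eq_comm]
      · simp [h0, eq_comm]
  · rintro ⟨k, h⟩ n R hR
    exact nlin_sub hD hsub h hR

/-- Deterministic linear space is contained in nondeterministic linear space. -/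
theorem e2s_nlin {R : (Fin n → ℕ) → Prop} (h : R ∈ E2s n) : R ∈ NLin n :=
  nlin_of_np (Np.of_df clo_E2s (df_of_mem h))

theorem law_lba : (∀ (n : ℕ) (R : (Fin n → ℕ) → Prop), R ∈ NLin n ↔ R ∈ E2s n) ↔
    ∃ k, Wrong E2s k := by
  rw [← law_nlin clo_E2s fun _ _ h => h]
  exact ⟨fun h n R hR => (h n R).1 hR, fun h n R => ⟨h n R, e2s_nlin⟩⟩

end Pool.Agent.TH762.E2
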