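import Pool.Agent.TH762.E2.Avd
import Pool.Agent.TH762.E2.Cls

set_option autoImplicit false

/-!
The recursion theorem, and the law for bounded formulas and the class `E^2`.
-/

namespace Pool.Agent.TH762.E2

open MvPolynomial
open Pool.Agent.TH762.MC (Tn ExL Few world)

variable {C D : (n : ℕ) → Set ((Fin n → ℕ) → Prop)} {Γ : Type} [Cx Γ] {k : ℕ}

/-- The relation given by a world. -/
def Qd (N : Γ → ℕ) (L : Γ → List (ℕ × ℕ) → Prop) (d : ℕ) (γ : Γ) (l : List (ℕ × ℕ))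
    (g w : ℕ) : Prop := Tn (N γ) (L γ) d ((g, w) :: l)

/-- The relation given by a world satisfies the recursion. -/
def Gd (N : (Γ × ℕ) × ℕ → ℕ) (L : (Γ × ℕ) × ℕ → List (ℕ × ℕ) → Prop) (g : Γ → ℕ)
    (h : (Γ × ℕ) × ℕ → ℕ) (d : ℕ) (γ : (Γ × ℕ) × ℕ) (l : List (ℕ × ℕ)) : Prop :=
  γ.2 ≤ N γ ∧ (∀ w ≤ N γ, (Qd N L d γ l 0 w ↔ w = g γ.1.1)) ∧
    (∀ t ≤ N γ, t < γ.1.2 → ∀ w' ≤ N γ, (Qd N L d γ l (t + 1) w' ↔
      ∃ w ≤ N γ, Qd N L d γ l t w ∧ w' = h ((γ.1.1, t), w))) ∧ Qd N L d γ l γ.1.2 γ.2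

theorem gd_df (hD : Clo D) {N : (Γ × ℕ) × ℕ → ℕ} (hN : Fn D N)
    {L : (Γ × ℕ) × ℕ → List (ℕ × ℕ) → Prop}
    (hL : Df D (fun p : Lc ((Γ × ℕ) × ℕ) k => L (bs k p) (ls k p))) {g : Γ → ℕ} (hg : Fn D g)
    {h : (Γ × ℕ) × ℕ → ℕ} (hh : Fn D h) (d m : ℕ) (hm : m + 1 + d = k) :
    Df D (fun p : Lc ((Γ × ℕ) × ℕ) m => Gd N L g h d (bs m p) (ls m p)) := by
  have hQ : Df D (fun p : (Lc ((Γ × ℕ) × ℕ) m × ℕ) × ℕ =>
      Qd N L d (bs m p.1.1) (ls m p.1.1) p.1.2 p.2) := tn_df hD hN hL d (m + 1) hm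
  have hb : Rn (bs (Γ := (Γ × ℕ) × ℕ) m) := rn_bs m
  have hNb : Fn D (fun p : Lc ((Γ × ℕ) × ℕ) m => N (bs m p)) := hN.ren hD hb
  have hz : Vr (fun p : Lc ((Γ × ℕ) × ℕ) m => (bs m p).2) := Vr.snd.ren hb
  have hy : Vr (fun p : Lc ((Γ × ℕ) × ℕ) m => (bs m p).1.2) :=
    (Vr.snd.ren (φ := fun q : (Γ × ℕ) × ℕ => q.1) Rn.fst).ren hb
  have hx : Rn (fun p : Lc ((Γ × ℕ) × ℕ) m => (bs m p).1.1) :=
    hb.comp (Rn.fst.comp Rn.fst)
  have h1 : Df D (fun p : Lc ((Γ × ℕ) × ℕ) m => (bs m p).2 ≤ N (bs m p)) :=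
    Df.lef hD (hz.fn hD) hNb
  have h2 : Df D (fun p : Lc ((Γ × ℕ) × ℕ) m =>
      ∀ w ≤ N (bs m p), (Qd N L d (bs m p) (ls m p) 0 w ↔ w = g (bs m p).1.1)) := by
    refine Df.all hD (P := fun q : Lc ((Γ × ℕ) × ℕ) m × ℕ =>
      (Qd N L d (bs m q.1) (ls m q.1) 0 q.2 ↔ q.2 = g (bs m q.1).1.1)) ?_ hNb
    refine Df.iff hD ?_ (Df.eqf hD (Vr.snd.fn hD) (hg.ren hD (Rn.fst.comp hx)))
    exact hQ.map hD (φ := fun q : Lc ((Γ × ℕ) × ℕ) m × ℕ => ((q.1, 0), q.2))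
      (((Rn.fst.mp hD).pair (Fn.nat hD 0)).pair (Vr.snd.fn hD))
  have h3 : Df D (fun p : Lc ((Γ × ℕ) × ℕ) m =>
      ∀ t ≤ N (bs m p), t < (bs m p).1.2 → ∀ w' ≤ N (bs m p),
        (Qd N L d (bs m p) (ls m p) (t + 1) w' ↔
      ∃ w ≤ N (bs m p), Qd N L d (bs m p) (ls m p) t w ∧ w' = h (((bs m p).1.1, t), w))) := by
    refine Df.all hD (P := fun q : Lc ((Γ × ℕ) × ℕ) m × ℕ =>
      q.2 < (bs m q.1).1.2 → ∀ w' ≤ N (bs m q.1),
        (Qd N L d (bs m q.1) (ls m q.1) (q.2 + 1) w' ↔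
      ∃ w ≤ N (bs m q.1), Qd N L d (bs m q.1) (ls m q.1) q.2 w ∧
        w' = h (((bs m q.1).1.1, q.2), w))) ?_ hNb
    refine Df.imp hD (Df.ltf hD (Vr.snd.fn hD) ((hy.ren Rn.fst).fn hD)) ?_
    refine Df.all hD (P := fun q : (Lc ((Γ × ℕ) × ℕ) m × ℕ) × ℕ =>
        (Qd N L d (bs m q.1.1) (ls m q.1.1) (q.1.2 + 1) q.2 ↔
      ∃ w ≤ N (bs m q.1.1), Qd N L d (bs m q.1.1) (ls m q.1.1) q.1.2 w ∧
        q.2 = h (((bs m q.1.1).1.1, q.1.2), w))) ?_ (hNb.fst hD)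
    have ht : Vr (fun q : (Lc ((Γ × ℕ) × ℕ) m × ℕ) × ℕ => q.1.2) := Vr.snd.ren Rn.fst
    refine Df.iff hD ?_ ?_
    · exact hQ.map hD (φ := fun q : (Lc ((Γ × ℕ) × ℕ) m × ℕ) × ℕ =>
        ((q.1.1, q.1.2 + 1), q.2)) ((((Rn.fst.comp Rn.fst).mp hD).pair
          ((ht.fn hD).add hD (Fn.nat hD 1))).pair (Vr.snd.fn hD))
    · refine Df.ex hD (P := fun r : ((Lc ((Γ × ℕ) × ℕ) m × ℕ) × ℕ) × ℕ =>
        Qd N L d (bs m r.1.1.1) (ls m r.1.1.1) r.1.1.2 r.2 ∧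
        r.1.2 = h (((bs m r.1.1.1).1.1, r.1.1.2), r.2)) ?_ ((hNb.fst hD).fst hD)
      have h11 : Rn (fun r : ((Lc ((Γ × ℕ) × ℕ) m × ℕ) × ℕ) × ℕ => r.1.1.1) :=
        (Rn.fst.comp Rn.fst).comp Rn.fst
      have h12 : Vr (fun r : ((Lc ((Γ × ℕ) × ℕ) m × ℕ) × ℕ) × ℕ => r.1.1.2) := ht.ren Rn.fst
      refine Df.and hD ?_ (Df.eqf hD ((Vr.snd.ren Rn.fst).fn hD) ?_)
      · exact hQ.ren hD (φ := fun r : ((Lc ((Γ × ℕ) × ℕ) m × ℕ) × ℕ) × ℕ =>
          ((r.1.1.1, r.1.1.2), r.2)) ((h11.pair h12).pair Vr.snd)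
      · exact hh.ren hD (φ := fun r : ((Lc ((Γ × ℕ) × ℕ) m × ℕ) × ℕ) × ℕ =>
          (((bs m r.1.1.1).1.1, r.1.1.2), r.2)) (((h11.comp hx).pair h12).pair Vr.snd)
  have h4 : Df D (fun p : Lc ((Γ × ℕ) × ℕ) m =>
      Qd N L d (bs m p) (ls m p) (bs m p).1.2 (bs m p).2) :=
    hQ.ren hD (φ := fun p : Lc ((Γ × ℕ) × ℕ) m => ((p, (bs m p).1.2), (bs m p).2))
      ((Rn.id.pair hy).pair hz)
  exact h1.and hD (h2.and hD (h3.and hD h4))

/-- Functions defined by recursion are definable in `D` if functions of `C` with at most `k + 1`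
values can be avoided by functions of `D`. -/
theorem rec_law (hC : Clo C) (hD : Clo D) (hA : ∀ n, Av C D (Fin n → ℕ) k) {F : Γ × ℕ → ℕ}
    {g : Γ → ℕ} {h : (Γ × ℕ) × ℕ → ℕ} (hF : Fn C F) (hg : Fn D g) (hh : Fn D h)
    (h0 : ∀ γ, F (γ, 0) = g γ) (h1 : ∀ γ t, F (γ, t + 1) = h ((γ, t), F (γ, t))) : Fn D F := by
  classical
  obtain ⟨B, hB⟩ := hF.2
  -- the bound
  let N : (Γ × ℕ) × ℕ → ℕ := fun γ => γ.1.2 + eval (Cx.x γ.1) B
  have hN : ∀ {E : (n : ℕ) → Set ((Fin n → ℕ) → Prop)}, Clo E → Fn E N := fun hE =>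
    ((Vr.snd.ren Rn.fst).fn hE).add hE ((Fn.poly hE B).ren hE Rn.fst)
  let τ : (Γ × ℕ) × ℕ → ℕ → ℕ := fun γ t => F (γ.1.1, min t γ.1.2)
  have hτ : Fn C (fun p : ((Γ × ℕ) × ℕ) × ℕ => τ p.1 p.2) := by
    refine hF.map hC (φ := fun p : ((Γ × ℕ) × ℕ) × ℕ => (p.1.1.1, min p.2 p.1.1.2)) ?_
    refine (((Rn.fst.comp Rn.fst).comp Rn.fst).mp hC).pair ((Vr.snd.fn hC).min hC ?_)
    exact (Vr.snd.ren (Rn.fst.comp Rn.fst)).fn hC
  have hle : ∀ γ t, τ γ t ≤ N γ := by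
    intro γ t
    refine (hB _).trans (le_trans ?_ (Nat.le_add_left _ _))
    refine eval_mono B fun i => ?_
    change Fin (Cx.n Γ + 1) at i
    refine Fin.cases ?_ (fun i => ?_) i
    · exact min_le_right _ _
    · exact le_rfl
  obtain ⟨L, hL, hL2⟩ := lists_exist (k := k) hC hD hA (hN hC) (hN hD) hτ hle
  have key : Df D (fun γ : (Γ × ℕ) × ℕ => ∃ d : Fin k,
      ExL (N γ) (Gd N L g h d.val γ) (k - (d.val + 1)) []) := by
    refine Df.exfin hD fun d => ?_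
    have hd := d.2
    have e1 := gd_df hD (hN hD) hL hg hh d.val (k - (d.val + 1)) (by omega)
    exact exL_df hD (hN hD) (K := k - (d.val + 1)) e1 (k - (d.val + 1)) 0 (by omega)
  refine ⟨key.congr fun γ => ?_, B, hB⟩
  constructor
  · intro hγ
    have hγ' : γ.2 = F γ.1 := hγ
    obtain ⟨hT, hFew⟩ := hL2 γ
    obtain ⟨d, hd, J, hJ, hJN, hw⟩ := world (N := N γ) (k := k) (τ := τ γ) (fun t _ => hle γ t)
      hT hFew
    refine ⟨⟨d, hd⟩, ?_⟩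
    show ExL (N γ) (Gd N L g h d γ) (k - (d + 1)) []
    have hlen : k - (d + 1) = (J.map fun t => (t, τ γ t)).reverse.length := by
      simp; omega
    rw [hlen]
    refine ExL.of _ [] ?_ ?_
    · intro e he
      rw [List.mem_reverse, List.mem_map] at he
      obtain ⟨t, ht, rfl⟩ := he
      exact ⟨hJN t ht, hle γ t⟩
    · rw [List.reverse_reverse, List.append_nil]
      have hy : γ.1.2 ≤ N γ := Nat.le_add_right _ _
      have hFy : F γ.1 ≤ N γ := by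
        have := hle γ γ.1.2
        simpa [τ] using this
      have hτ1 : ∀ t, t ≤ γ.1.2 → τ γ t = F (γ.1.1, t) := by
        intro t ht
        show F (γ.1.1, min t γ.1.2) = _
        rw [min_eq_left ht]
      refine ⟨hγ'.le.trans hFy, ?_, ?_, ?_⟩
      · intro w hwN
        refine (hw 0 (Nat.zero_le _) w hwN).trans ?_
        rw [hτ1 0 (Nat.zero_le _), h0]
      · intro t ht hty w' hw'
        refine (hw (t + 1) (by omega) w' hw').trans ?_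
        rw [hτ1 (t + 1) (by omega), h1]
        constructor
        · intro h2
          refine ⟨F (γ.1.1, t), ?_, ?_, h2⟩
          · rw [← hτ1 t (by omega)]
            exact hle γ t
          · refine (hw t ht _ ?_).2 (hτ1 t (by omega)).symm
            rw [← hτ1 t (by omega)]
            exact hle γ t
        · rintro ⟨w, hwN, h2, h3⟩
          have h4 := (hw t ht w hwN).1 h2
          rw [hτ1 t (by omega)] at h4
          rw [h3, h4]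
      · refine (hw γ.1.2 hy γ.2 (hγ'.le.trans hFy)).2 ?_
        rw [hτ1 _ le_rfl]
        exact hγ'
  · rintro ⟨d, hd⟩
    refine ExL.sound ?_ _ _ hd
    rintro l ⟨hz, g0, g1, g2⟩
    show γ.2 = F γ.1
    have hy : γ.1.2 ≤ N γ := Nat.le_add_right _ _
    have ind : ∀ t, t ≤ γ.1.2 → ∀ w ≤ N γ, (Qd N L d.val γ l t w ↔ w = F (γ.1.1, t)) := by
      intro t
      induction t with
      | zero =>
        intro _ w hw
        rw [g0 w hw, h0]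
      | succ t ih =>
        intro ht w' hw'
        rw [g1 t (by omega) (by omega) w' hw', h1]
        constructor
        · rintro ⟨w, hw, h2, h3⟩
          rw [h3, (ih (by omega) w hw).1 h2]
        · intro h2
          have hFt : F (γ.1.1, t) ≤ N γ := by
            have h3 := hle γ t
            have h4 : τ γ t = F (γ.1.1, t) := by
              show F (γ.1.1, min t γ.1.2) = _
              rw [min_eq_left (by omega)]
            rw [← h4]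
            exact h3
          exact ⟨_, hFt, (ih (by omega) _ hFt).2 rfl, h2⟩
    exact (ind γ.1.2 le_rfl γ.2 hz).1 g2

/-- If few-valued functions of the class can be avoided by a class closed under bounded
quantification, then the functions of the class are definable in it. -/
theorem fn_closed (hD : Clo D) (hA : Av E2s D (Fin 1 → ℕ) k) {n : ℕ} {f : (Fin n → ℕ) → ℕ}
    (hf : E2 n f) : E2 n f ∧ Fn D f := by
  have hA' := av_all clo_E2s hD hA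
  refine hf (fun n => {f | E2 n f ∧ Fn D f}) ?_ ?_ ?_ ?_ ?_ ?_
  · intro n
    exact ⟨E2.zero n, Fn.nat hD 0⟩
  · exact ⟨(E2.proj 1 0).succ, ((Vr.fin 0).fn hD).add hD (Fn.nat hD 1)⟩
  · intro n i
    exact ⟨E2.proj n i, (Vr.fin i).fn hD⟩
  · exact ⟨(E2.proj 2 0).mul1 (E2.proj 2 1), (((Vr.fin 0).fn hD).add hD (Fn.nat hD 1)).mul hD
      (((Vr.fin 1).fn hD).add hD (Fn.nat hD 1))⟩
  · rintro n m g hs ⟨hg, hg'⟩ hh
    exact ⟨hg.comp fun i => (hh i).1, hg'.map hD (φ := fun (v : Fin n → ℕ) i => hs i v)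
      fun i => (hh i).2⟩
  · rintro n g h b F ⟨hg, hg'⟩ ⟨hh, hh'⟩ ⟨hb, hb'⟩ h1 h2 h3
    have hF : E2 (n + 1) F := E2.lrec hg hh hb h1 h2 h3
    refine ⟨hF, ?_⟩
    obtain ⟨B, hB⟩ := hF.bound
    have e1 : Fn E2s F := fn_of_E2 hF hB
    have e2 : Fn E2s (fun p : (Fin n → ℕ) × ℕ => F (Matrix.vecCons p.2 p.1)) :=
      e1.ren clo_E2s (φ := fun p : (Fin n → ℕ) × ℕ =>
        (Matrix.vecCons p.2 p.1 : Fin (n + 1) → ℕ)) (fun i => ⟨i, fun _ => rfl⟩)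
    have e3 : Fn D (fun q : ((Fin n → ℕ) × ℕ) × ℕ =>
        h (Matrix.vecCons q.2 (Matrix.vecCons q.1.2 q.1.1))) :=
      hh'.ren hD (φ := fun q : ((Fin n → ℕ) × ℕ) × ℕ =>
        (Matrix.vecCons q.2 (Matrix.vecCons q.1.2 q.1.1) : Fin (n + 2) → ℕ))
        (fun i => ⟨i, fun _ => rfl⟩)
    have e4 := rec_law clo_E2s hD hA' e2 hg' e3 (fun γ => h2 γ) (fun γ t => h3 γ t)
    have e5 := e4.ren hD (φ := fun v : Fin (n + 1) → ℕ => ((Fin.tail v, v 0) : (Fin n → ℕ) × ℕ))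
      (by
        intro i
        change Fin (n + 1) at i
        refine Fin.cases ?_ (fun i => ?_) i
        · exact ⟨(0 : Fin (n + 1)), fun _ => rfl⟩
        · exact ⟨(i.succ : Fin (n + 1)), fun _ => rfl⟩)
    refine e5.congr fun v => ?_
    show F v = F (Matrix.vecCons (v 0) (Fin.tail v))
    congr 1
    funext i
    refine Fin.cases ?_ (fun i => ?_) i
    · rfl
    · rfl

theorem e2s_sub (hD : Clo D) (hA : Av E2s D (Fin 1 → ℕ) k) {n : ℕ} {R : (Fin n → ℕ) → Prop}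
    (hR : R ∈ E2s n) : R ∈ D n := by
  obtain ⟨f, hf, _, h⟩ := E2s.zero hR
  obtain ⟨R', hR', h'⟩ := Df.eqf hD (fn_closed hD hA hf).2 (Fn.nat hD 0)
  have : R = R' := by
    funext v
    exact propext ((h v).trans (h' v))
  rw [this]
  exact hR'

/-- Every function of the class `E^2` with values `0..k` can be avoided by a function with values
`0..k` whose level sets are in `D`. -/
def Avoid (D : (n : ℕ) → Set ((Fin n → ℕ) → Prop)) (k : ℕ) : Prop :=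
  ∀ f : (Fin 1 → ℕ) → ℕ, E2 1 f → (∀ v, f v ≤ k) →
    ∃ g : (Fin 1 → ℕ) → ℕ, (∀ v, g v ≤ k ∧ g v ≠ f v) ∧
      ∀ c : ℕ, (fun v : Fin 1 → ℕ => g v = c) ∈ D 1

theorem av_of_avoid (hD : Clo D) (h : Avoid D k) : Av E2s D (Fin 1 → ℕ) k := by
  intro F hF hk
  obtain ⟨g, hg, hg2⟩ := h F (E2_of_fn hF hk) hk
  refine ⟨g, ?_, hg⟩
  refine Fn.of_le (g := fun _ => k) ?_ (Fn.nat hD k) (fun v => (hg v).1)
  have h1 : Df D (fun p : (Fin 1 → ℕ) × ℕ => ∃ c : Fin (k + 1), p.2 = c.val ∧ g p.1 = c.val) :=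
    Df.exfin hD fun c => (Df.eqf hD (Vr.snd.fn hD) (Fn.nat hD c.val)).and hD
      (Df.fst hD (P := fun v : Fin 1 → ℕ => g v = c.val) ⟨_, hg2 c.val, fun _ => Iff.rfl⟩)
  refine h1.congr fun p => ?_
  constructor
  · intro h2
    have h2' : p.2 = g p.1 := h2
    exact ⟨⟨g p.1, by have := (hg p.1).1; omega⟩, h2', rfl⟩
  · rintro ⟨c, h2, h3⟩
    exact h2.trans h3.symm

/-- The law. -/
theorem law (hD : Clo D) : (∀ (n : ℕ) (R : (Fin n → ℕ) → Prop), R ∈ E2s n → R ∈ D n) ↔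
    ∃ k : ℕ, Avoid D k := by
  constructor
  · intro h
    refine ⟨1, fun f hf hk => ⟨fun v => 1 - f v, fun v => ?_, fun c => ?_⟩⟩
    · have := hk v
      constructor <;> (beta_reduce; omega)
    · exact h _ _ (E2s.of_zero ((((E2.const 1).sub hf).sub (E2.const c)).add
        ((E2.const c).sub ((E2.const 1).sub hf))) fun v => by
          show 1 - f v = c ↔ 1 - f v - c + (c - (1 - f v)) = 0
          omega)
  · rintro ⟨k, h⟩ n R hR
    exact e2s_sub hD (av_of_avoid hD h) hR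

theorem law_delta0 : (∀ (n : ℕ) (R : (Fin n → ℕ) → Prop), R ∈ Delta0 n ↔ R ∈ E2s n) ↔
    ∃ k : ℕ, Avoid Delta0 k := by
  rw [← law clo_delta0]
  exact ⟨fun h n R hR => (h n R).2 hR, fun h n R => ⟨fun hR => delta0_sub hR, fun hR => h n R hR⟩⟩

end Pool.Agent.TH762.E2
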